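import Pool.Agent.Lib.MP_8c9cbf_an.F.Defs

/-! Row F6b: the operators with small tails and the character of `FS`. -/

namespace Pool.Agent.MP8c9cbf

open Finset Filter Topology

variable {𝕜 : Type} [RCLike 𝕜]

namespace FS

variable {X : Type} [NormedAddCommGroup X] [NormedSpace 𝕜 X]

/-- the operators with `‖(I - Q n) W‖ → 0` -/
def Gd (F : FS 𝕜 X) (W : X →L[𝕜] X) : Prop :=
  ∀ ε : ℝ, 0 < ε → ∃ n0 : ℕ, ∀ n ≥ n0, ∀ x, ‖W x - F.Q n (W x)‖ ≤ ε * ‖x‖

variable (F : FS 𝕜 X)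

theorem Gd.add {W V : X →L[𝕜] X} (hW : F.Gd W) (hV : F.Gd V) : F.Gd (W + V) := by
  intro ε hε
  obtain ⟨n0, h0⟩ := hW (ε / 2) (half_pos hε)
  obtain ⟨n1, h1⟩ := hV (ε / 2) (half_pos hε)
  refine ⟨max n0 n1, fun n hn x => ?_⟩
  have e0 := h0 n (le_trans (le_max_left _ _) hn) x
  have e1 := h1 n (le_trans (le_max_right _ _) hn) x
  have e2 : (W + V) x - F.Q n ((W + V) x) = (W x - F.Q n (W x)) + (V x - F.Q n (V x)) := by
    rw [ContinuousLinearMap.add_apply, map_add]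
    abel
  rw [e2]
  refine le_trans (norm_add_le _ _) ?_
  linarith

theorem Gd.smul {W : X →L[𝕜] X} (hW : F.Gd W) (c : 𝕜) : F.Gd (c • W) := by
  intro ε hε
  obtain ⟨n0, h0⟩ := hW (ε / (‖c‖ + 1)) (by positivity)
  refine ⟨n0, fun n hn x => ?_⟩
  have e0 := h0 n hn x
  have e2 : (c • W) x - F.Q n ((c • W) x) = c • (W x - F.Q n (W x)) := by
    rw [ContinuousLinearMap.smul_apply, map_smul, smul_sub]
  rw [e2, norm_smul]
  have hc : 0 ≤ ‖c‖ := norm_nonneg c
  calc ‖c‖ * ‖W x - F.Q n (W x)‖ ≤ (‖c‖ + 1) * ‖W x - F.Q n (W x)‖ := by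
        gcongr
        linarith
    _ ≤ (‖c‖ + 1) * (ε / (‖c‖ + 1) * ‖x‖) := by gcongr
    _ = ε * ‖x‖ := by
        rw [← mul_assoc, mul_div_cancel₀ _ (by positivity)]

theorem Gd.comp_right {W : X →L[𝕜] X} (hW : F.Gd W) (T : X →L[𝕜] X) : F.Gd (W.comp T) := by
  intro ε hε
  obtain ⟨n0, h0⟩ := hW (ε / (‖T‖ + 1)) (by positivity)
  refine ⟨n0, fun n hn x => ?_⟩
  have e0 := h0 n hn (T x)
  have hT : 0 ≤ ‖T‖ := norm_nonneg T
  rw [ContinuousLinearMap.comp_apply]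
  refine le_trans e0 ?_
  calc ε / (‖T‖ + 1) * ‖T x‖ ≤ ε / (‖T‖ + 1) * ((‖T‖ + 1) * ‖x‖) := by
        gcongr
        refine le_trans (T.le_opNorm x) ?_
        gcongr
        linarith
    _ = ε * ‖x‖ := by
        rw [← mul_assoc, div_mul_cancel₀ _ (by positivity)]

/-- write `T = c + T'` with `T'` in `Gd` (field `sc`) -/
theorem Gd.comp_left {W : X →L[𝕜] X} (hW : F.Gd W) (T : X →L[𝕜] X) : F.Gd (T.comp W) := by
  obtain ⟨c, hc⟩ := F.sc T
  have hT : F.Gd (T - c • ContinuousLinearMap.id 𝕜 X) := hc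
  have e : T.comp W = (T - c • ContinuousLinearMap.id 𝕜 X).comp W + c • W := by
    ext x
    simp
  rw [e]
  exact Gd.add F (Gd.comp_right F hT W) (Gd.smul F hW c)

/-- if `R m` and `J m` are put around `W` in `Gd` the norm tends to zero:
`R m W J m = R m (W - Q m W) J m` since `R m Q m = 0` -/
theorem RWJ {W : X →L[𝕜] X} (hW : F.Gd W) : ∀ ε : ℝ, 0 < ε → ∃ n0 : ℕ, ∀ n ≥ n0, ∀ u,
    ‖F.R n (W (F.J n u))‖ ≤ ε * ‖u‖ := by
  intro ε hε
  have hC : 0 ≤ |F.C| := abs_nonneg _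
  obtain ⟨n0, h0⟩ := hW (ε / (|F.C| + 1) ^ 2) (by positivity)
  refine ⟨n0, fun n hn u => ?_⟩
  have e0 := h0 n hn (F.J n u)
  have e1 : F.R n (W (F.J n u)) = F.R n (W (F.J n u) - F.Q n (W (F.J n u))) := by
    rw [map_sub, F.RQ, sub_zero]
  rw [e1]
  have hle : F.C ≤ |F.C| + 1 := (le_abs_self _).trans (by linarith)
  have e2 : ‖F.J n u‖ ≤ (|F.C| + 1) * ‖u‖ :=
    (F.nJ n u).trans (mul_le_mul_of_nonneg_right hle (norm_nonneg _))
  calc ‖F.R n (W (F.J n u) - F.Q n (W (F.J n u)))‖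
      ≤ F.C * ‖W (F.J n u) - F.Q n (W (F.J n u))‖ := F.nR n _
    _ ≤ (|F.C| + 1) * ‖W (F.J n u) - F.Q n (W (F.J n u))‖ :=
        mul_le_mul_of_nonneg_right hle (norm_nonneg _)
    _ ≤ (|F.C| + 1) * (ε / (|F.C| + 1) ^ 2 * ((|F.C| + 1) * ‖u‖)) := by
        gcongr
        exact e0.trans (by gcongr)
    _ = ε * ‖u‖ := by
        field_simp

/-- a scalar in `Gd` is zero (by `RWJ` and `R n J n = 1`) -/
theorem eq_zero_of_smul {c : 𝕜} (h : F.Gd (c • ContinuousLinearMap.id 𝕜 X)) : c = 0 := by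
  rw [← norm_le_zero_iff]
  apply le_of_forall_pos_le_add
  intro ε hε
  obtain ⟨n0, h0⟩ := RWJ F h ε hε
  have e0 := h0 n0 le_rfl (CZ.dl 0)
  rw [ContinuousLinearMap.smul_apply, ContinuousLinearMap.id_apply, map_smul, F.RJ,
    norm_smul] at e0
  have hd : 0 < ‖(CZ.dl 0 : CZ 𝕜)‖ := by
    refine lt_of_lt_of_le ?_ (CZ.norm_coord_le (CZ.dl 0 : CZ 𝕜) 0)
    rw [CZ.dl_apply, if_pos rfl, norm_one]
    exact one_pos
  rw [zero_add]
  exact le_of_mul_le_mul_right e0 hd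

/-- the character: `T - (lam T) • 1` is in `Gd` -/
noncomputable def lam (T : X →L[𝕜] X) : 𝕜 := (F.sc T).choose

theorem lam_spec (T : X →L[𝕜] X) : F.Gd (T - F.lam T • ContinuousLinearMap.id 𝕜 X) := by
  exact (F.sc T).choose_spec

theorem lam_unique {T : X →L[𝕜] X} {c : 𝕜} (h : F.Gd (T - c • ContinuousLinearMap.id 𝕜 X)) :
    F.lam T = c := by
  have h1 : F.Gd ((F.lam T - c) • ContinuousLinearMap.id 𝕜 X) := by
    have h3 := Gd.add F h (Gd.smul F (lam_spec F T) (-1))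
    have e : T - c • ContinuousLinearMap.id 𝕜 X +
        (-1 : 𝕜) • (T - F.lam T • ContinuousLinearMap.id 𝕜 X) =
        (F.lam T - c) • ContinuousLinearMap.id 𝕜 X := by
      module
    rwa [e] at h3
  exact sub_eq_zero.mp (eq_zero_of_smul F h1)

theorem lam_add (T U : X →L[𝕜] X) : F.lam (T + U) = F.lam T + F.lam U := by
  apply lam_unique
  have e : T + U - (F.lam T + F.lam U) • ContinuousLinearMap.id 𝕜 X =
      (T - F.lam T • ContinuousLinearMap.id 𝕜 X) + (U - F.lam U • ContinuousLinearMap.id 𝕜 X) := by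
    module
  rw [e]
  exact Gd.add F (lam_spec F T) (lam_spec F U)

theorem lam_smul (c : 𝕜) (T : X →L[𝕜] X) : F.lam (c • T) = c * F.lam T := by
  apply lam_unique
  have e : c • T - (c * F.lam T) • ContinuousLinearMap.id 𝕜 X =
      c • (T - F.lam T • ContinuousLinearMap.id 𝕜 X) := by
    module
  rw [e]
  exact Gd.smul F (lam_spec F T) c

theorem lam_comp (T U : X →L[𝕜] X) : F.lam (T.comp U) = F.lam T * F.lam U := by
  apply lam_unique
  have e : T.comp U - (F.lam T * F.lam U) • ContinuousLinearMap.id 𝕜 X =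
      (T - F.lam T • ContinuousLinearMap.id 𝕜 X).comp U +
        F.lam T • (U - F.lam U • ContinuousLinearMap.id 𝕜 X) := by
    ext x
    simp only [ContinuousLinearMap.sub_apply, ContinuousLinearMap.comp_apply,
      ContinuousLinearMap.smul_apply, ContinuousLinearMap.id_apply, ContinuousLinearMap.add_apply]
    module
  rw [e]
  exact Gd.add F (Gd.comp_right F (lam_spec F T) U) (Gd.smul F (lam_spec F U) _)

theorem lam_one : F.lam (ContinuousLinearMap.id 𝕜 X) = 1 := by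
  apply lam_unique
  intro ε hε
  refine ⟨0, fun n _ x => ?_⟩
  rw [one_smul, sub_self, ContinuousLinearMap.zero_apply, map_zero, sub_zero, norm_zero]
  positivity

theorem lam_sum {ι : Type*} (s : Finset ι) (T : ι → X →L[𝕜] X) :
    F.lam (∑ i ∈ s, T i) = ∑ i ∈ s, F.lam (T i) := by
  classical
  induction s using Finset.induction_on with
  | empty =>
    rw [Finset.sum_empty, Finset.sum_empty]
    have h := lam_smul F (0 : 𝕜) (0 : X →L[𝕜] X)
    rwa [zero_smul, zero_mul] at h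
  | insert i s hi ih =>
    rw [Finset.sum_insert hi, Finset.sum_insert hi, lam_add, ih]

end FS

end Pool.Agent.MP8c9cbf
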