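import Pool.Agent.Lib.MP_8c9cbf_an.F.Defs

/-! Row F1: `c_0 ≅ c_0 × c_0`, and the swindle homomorphism `T ↦ diag(T, T, T, ...)` on `L(c_0)`. -/

namespace Pool.Agent.MP8c9cbf

open Finset Filter Topology

variable (𝕜 : Type) [RCLike 𝕜]

variable {𝕜} in
theorem F1_tendsto (h : ℕ → Option ℕ) (hh : ∀ n m l, h n = some l → h m = some l → n = m)
    (x : CZ 𝕜) : Tendsto (fun n => (h n).elim 0 (fun m => x m)) atTop (𝓝 (0 : 𝕜)) := by
  rw [← Nat.cofinite_eq_atTop, Metric.tendsto_nhds]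
  intro ε hε
  have h1 : {m | ε ≤ ‖x m‖}.Finite := by
    have h2 := x.tendsto
    rw [← Nat.cofinite_eq_atTop, Metric.tendsto_nhds] at h2
    have h3 := h2 ε hε
    rw [Filter.eventually_cofinite] at h3
    refine h3.subset fun m hm => ?_
    simp only [dist_zero_right, not_lt, Set.mem_ofPred_eq]
    exact hm
  rw [Filter.eventually_cofinite]
  refine ((h1.image some).preimage (f := h) ?_).subset fun n hn => ?_
  · rintro n ⟨l, -, hl⟩ m - hnm
    exact hh n m l hl.symm (by rw [← hnm, hl])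
  · rcases hl : h n with _ | l
    · simp only [hl, Option.elim_none, dist_self, not_lt, Set.mem_ofPred_eq] at hn
      exact absurd hn (not_le.2 hε)
    · simp only [hl, Option.elim_some, dist_zero_right, not_lt, Set.mem_ofPred_eq] at hn
      exact ⟨l, hn, hl.symm⟩

/-- composition with a partial injection of the indices -/
noncomputable def F1_op (h : ℕ → Option ℕ)
    (hh : ∀ n m l, h n = some l → h m = some l → n = m) : CZ 𝕜 →L[𝕜] CZ 𝕜 :=
  CZ.lift (fun n => (h n).elim 0 (fun m => CZ.co m)) 1 zero_le_one (fun n x => by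
    rcases h n with _ | l
    · simp
    · rw [one_mul]
      exact CZ.norm_coord_le x l) (fun x => by
    refine (F1_tendsto h hh x).congr fun n => ?_
    rcases h n with _ | l
    · rfl
    · rfl)

@[simp] theorem F1_op_apply (h : ℕ → Option ℕ)
    (hh : ∀ n m l, h n = some l → h m = some l → n = m) (x : CZ 𝕜) (n : ℕ) :
    F1_op 𝕜 h hh x n = (h n).elim 0 (fun m => x m) := by
  show (((h n).elim 0 (fun m => CZ.co m) : CZ 𝕜 →L[𝕜] 𝕜)) x = _
  rcases h n with _ | l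
  · rfl
  · rfl

/-- the row `i` -/
noncomputable def F1_row (i : ℕ) : CZ 𝕜 →L[𝕜] CZ 𝕜 :=
  F1_op 𝕜 (fun j => some (Nat.pair i j)) (fun n m l h1 h2 => by
    have h3 : Nat.pair i n = Nat.pair i m := by
      rw [Option.some.inj h1, Option.some.inj h2]
    exact (Nat.pair_eq_pair.1 h3).2)

@[simp] theorem F1_row_apply (i : ℕ) (x : CZ 𝕜) (j : ℕ) :
    F1_row 𝕜 i x j = x (Nat.pair i j) := by
  rw [F1_row, F1_op_apply]
  rfl

theorem F1_row_le (i : ℕ) (x : CZ 𝕜) : ‖F1_row 𝕜 i x‖ ≤ ‖x‖ :=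
  CZ.norm_le _ (norm_nonneg _) fun j => by
    rw [F1_row_apply]
    exact CZ.norm_coord_le x _

theorem F1_row_tendsto (x : CZ 𝕜) : ∀ ε > 0, ∃ i0, ∀ i ≥ i0, ‖F1_row 𝕜 i x‖ ≤ ε := by
  intro ε hε
  obtain ⟨n0, hn0⟩ := Metric.tendsto_atTop.1 x.tendsto ε hε
  refine ⟨n0, fun i hi => CZ.norm_le _ hε.le fun j => ?_⟩
  rw [F1_row_apply]
  have h1 := hn0 (Nat.pair i j) (hi.le.trans (Nat.left_le_pair i j))
  rw [dist_zero_right] at h1
  exact h1.le

theorem F1_sw_tendsto (T : CZ 𝕜 →L[𝕜] CZ 𝕜) (x : CZ 𝕜) :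
    Tendsto (fun n => T (F1_row 𝕜 (Nat.unpair n).1 x) (Nat.unpair n).2) atTop (𝓝 (0 : 𝕜)) := by
  rw [← Nat.cofinite_eq_atTop, Metric.tendsto_nhds]
  intro ε hε
  rw [Filter.eventually_cofinite]
  -- rows which are not small
  obtain ⟨i0, hi0⟩ := F1_row_tendsto 𝕜 x (ε / (2 * (‖T‖ + 1)))
    (div_pos hε (by positivity))
  have h1 : ∀ i, ∃ j0, ∀ j ≥ j0, ‖T (F1_row 𝕜 i x) j‖ < ε := by
    intro i
    obtain ⟨j0, hj0⟩ := Metric.tendsto_atTop.1 (T (F1_row 𝕜 i x)).tendsto ε hε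
    refine ⟨j0, fun j hj => ?_⟩
    have h2 := hj0 j hj
    rwa [dist_zero_right] at h2
  choose j0 hj0 using h1
  refine ((Finset.range i0).biUnion fun i => (Finset.range (j0 i)).image fun j =>
      Nat.pair i j).finite_toSet.subset fun n hn => ?_
  simp only [dist_zero_right, not_lt, Set.mem_ofPred_eq] at hn
  have h4 : (Nat.unpair n).1 < i0 := by
    by_contra h5
    have h6 := hi0 (Nat.unpair n).1 (not_lt.1 h5)
    have h7 : ‖T (F1_row 𝕜 (Nat.unpair n).1 x) (Nat.unpair n).2‖ ≤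
        ‖T‖ * (ε / (2 * (‖T‖ + 1))) :=
      (CZ.norm_coord_le _ _).trans ((T.le_opNorm _).trans
        (mul_le_mul_of_nonneg_left h6 T.opNorm_nonneg))
    have h8 : ‖T‖ * (ε / (2 * (‖T‖ + 1))) < ε := by
      have h9 : 0 ≤ ‖T‖ := T.opNorm_nonneg
      rw [mul_div_assoc', div_lt_iff₀ (by positivity)]
      nlinarith [mul_nonneg h9 hε.le]
    linarith
  have h5 : (Nat.unpair n).2 < j0 (Nat.unpair n).1 := by
    by_contra h6
    exact absurd (hj0 (Nat.unpair n).1 (Nat.unpair n).2 (not_lt.1 h6)) (not_lt.2 hn)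
  simp only [Finset.coe_biUnion, Finset.coe_image, Set.mem_iUnion, Finset.mem_coe,
    Set.mem_image, Finset.mem_range]
  exact ⟨(Nat.unpair n).1, h4, (Nat.unpair n).2, h5, Nat.pair_unpair n⟩

/-- the diagonal operator `diag(T, T, T, ...)` -/
noncomputable def F1_sw (T : CZ 𝕜 →L[𝕜] CZ 𝕜) : CZ 𝕜 →L[𝕜] CZ 𝕜 :=
  CZ.lift (fun n => (CZ.co (Nat.unpair n).2).comp (T.comp (F1_row 𝕜 (Nat.unpair n).1))) ‖T‖
    T.opNorm_nonneg (fun n x => by
      refine (CZ.norm_coord_le _ _).trans ((T.le_opNorm _).trans ?_)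
      exact mul_le_mul_of_nonneg_left (F1_row_le 𝕜 _ x) T.opNorm_nonneg)
    (fun x => F1_sw_tendsto 𝕜 T x)

theorem F1_sw_apply (T : CZ 𝕜 →L[𝕜] CZ 𝕜) (x : CZ 𝕜) (n : ℕ) :
    F1_sw 𝕜 T x n = T (F1_row 𝕜 (Nat.unpair n).1 x) (Nat.unpair n).2 := rfl

theorem F1_row_sw (T : CZ 𝕜 →L[𝕜] CZ 𝕜) (x : CZ 𝕜) (i : ℕ) :
    F1_row 𝕜 i (F1_sw 𝕜 T x) = T (F1_row 𝕜 i x) := by
  apply CZ.ext
  intro j
  rw [F1_row_apply, F1_sw_apply, Nat.unpair_pair]

/-- even and odd coordinates -/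
theorem exists_double : ∃ s0 s1 t0 t1 : CZ 𝕜 →L[𝕜] CZ 𝕜, (∀ x, t0 (s0 x) = x) ∧
    (∀ x, t1 (s1 x) = x) ∧ (∀ x, t0 (s1 x) = 0) ∧ (∀ x, t1 (s0 x) = 0) ∧
    ∀ x, s0 (t0 x) + s1 (t1 x) = x := by
  refine ⟨F1_op 𝕜 (fun n => if n % 2 = 0 then some (n / 2) else none) ?_,
    F1_op 𝕜 (fun n => if n % 2 = 1 then some (n / 2) else none) ?_,
    F1_op 𝕜 (fun n => some (2 * n)) ?_, F1_op 𝕜 (fun n => some (2 * n + 1)) ?_,
    fun x => CZ.ext fun n => ?_, fun x => CZ.ext fun n => ?_, fun x => CZ.ext fun n => ?_,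
    fun x => CZ.ext fun n => ?_, fun x => CZ.ext fun n => ?_⟩
  · intro n m l h1 h2
    split_ifs at h1 h2
    have h3 := Option.some.inj h1
    have h4 := Option.some.inj h2
    omega
  · intro n m l h1 h2
    split_ifs at h1 h2
    have h3 := Option.some.inj h1
    have h4 := Option.some.inj h2
    omega
  · intro n m l h1 h2
    have h3 := Option.some.inj h1
    have h4 := Option.some.inj h2
    omega
  · intro n m l h1 h2
    have h3 := Option.some.inj h1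
    have h4 := Option.some.inj h2
    omega
  · rw [F1_op_apply, Option.elim_some, F1_op_apply, if_pos (by omega), Option.elim_some]
    congr 1
    omega
  · rw [F1_op_apply, Option.elim_some, F1_op_apply, if_pos (by omega), Option.elim_some]
    congr 1
    omega
  · rw [F1_op_apply, Option.elim_some, F1_op_apply, if_neg (by omega)]
    rfl
  · rw [F1_op_apply, Option.elim_some, F1_op_apply, if_neg (by omega)]
    rfl
  · rw [ZeroAtInftyContinuousMap.add_apply, F1_op_apply, F1_op_apply]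
    rcases Nat.mod_two_eq_zero_or_one n with h | h
    · rw [if_pos h, if_neg (by omega), Option.elim_some, Option.elim_none, F1_op_apply,
        Option.elim_some, add_zero]
      congr 1
      omega
    · rw [if_neg (by omega), if_pos h, Option.elim_some, Option.elim_none, F1_op_apply,
        Option.elim_some, zero_add]
      congr 1
      omega

/-- `σ T (x) (i, j) = T (x (i, ·)) j` on `c_0(ℕ × ℕ) ≅ c_0` (use `Nat.pairEquiv` or `Nat.pair`,
`Nat.unpair`); `v0` is the embedding as row `0`, `w0` the row `0`, `v1` the shift `i ↦ i + 1` of the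
rows, `w1` its left inverse. -/
theorem exists_swindle : ∃ (σ : (CZ 𝕜 →L[𝕜] CZ 𝕜) →+* (CZ 𝕜 →L[𝕜] CZ 𝕜))
    (v0 v1 w0 w1 : CZ 𝕜 →L[𝕜] CZ 𝕜), w0 * v0 = 1 ∧ w1 * v1 = 1 ∧ w0 * v1 = 0 ∧ w1 * v0 = 0 ∧
    v0 * w0 + v1 * w1 = 1 ∧ ∀ T, σ T = v0 * T * w0 + v1 * σ T * w1 := by
  have hv0 : ∀ n m l, (if (Nat.unpair n).1 = 0 then some (Nat.unpair n).2 else none) = some l →
      (if (Nat.unpair m).1 = 0 then some (Nat.unpair m).2 else none) = some l → n = m := by
    intro n m l h1 h2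
    split_ifs at h1 h2 with h3 h4
    have h5 := Option.some.inj h1
    have h6 := Option.some.inj h2
    rw [← Nat.pair_unpair n, ← Nat.pair_unpair m, h3, h4, h5, h6]
  have hv1 : ∀ n m l, (if (Nat.unpair n).1 = 0 then none else
      some (Nat.pair ((Nat.unpair n).1 - 1) (Nat.unpair n).2)) = some l →
      (if (Nat.unpair m).1 = 0 then none else
      some (Nat.pair ((Nat.unpair m).1 - 1) (Nat.unpair m).2)) = some l → n = m := by
    intro n m l h1 h2
    split_ifs at h1 h2 with h3 h4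
    have h5 := (Option.some.inj h1).trans (Option.some.inj h2).symm
    obtain ⟨h6, h7⟩ := Nat.pair_eq_pair.1 h5
    rw [← Nat.pair_unpair n, ← Nat.pair_unpair m, h7]
    congr 1
    omega
  have hw1 : ∀ n m l, some (Nat.pair ((Nat.unpair n).1 + 1) (Nat.unpair n).2) = some l →
      some (Nat.pair ((Nat.unpair m).1 + 1) (Nat.unpair m).2) = some l → n = m := by
    intro n m l h1 h2
    have h5 := (Option.some.inj h1).trans (Option.some.inj h2).symm
    obtain ⟨h6, h7⟩ := Nat.pair_eq_pair.1 h5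
    rw [← Nat.pair_unpair n, ← Nat.pair_unpair m, h7]
    congr 1
    omega
  let v0 : CZ 𝕜 →L[𝕜] CZ 𝕜 := F1_op 𝕜 _ hv0
  let v1 : CZ 𝕜 →L[𝕜] CZ 𝕜 := F1_op 𝕜 _ hv1
  let w1 : CZ 𝕜 →L[𝕜] CZ 𝕜 := F1_op 𝕜 _ hw1
  have ev0 : ∀ x n, v0 x n = if (Nat.unpair n).1 = 0 then x (Nat.unpair n).2 else 0 := by
    intro x n
    show F1_op 𝕜 _ hv0 x n = _
    rw [F1_op_apply]
    split_ifs <;> rfl
  have ev1 : ∀ x n, v1 x n = if (Nat.unpair n).1 = 0 then 0 else
      x (Nat.pair ((Nat.unpair n).1 - 1) (Nat.unpair n).2) := by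
    intro x n
    show F1_op 𝕜 _ hv1 x n = _
    rw [F1_op_apply]
    split_ifs <;> rfl
  have ew1 : ∀ x n, w1 x n = x (Nat.pair ((Nat.unpair n).1 + 1) (Nat.unpair n).2) := by
    intro x n
    show F1_op 𝕜 _ hw1 x n = _
    rw [F1_op_apply]
    rfl
  have hadd : ∀ (x y : CZ 𝕜) n, (x + y) n = x n + y n := fun x y n => rfl
  refine ⟨⟨⟨⟨F1_sw 𝕜, ?_⟩, ?_⟩, ?_, ?_⟩, v0, v1, F1_row 𝕜 0, w1, ?_, ?_, ?_, ?_, ?_, ?_⟩
  · refine ContinuousLinearMap.ext fun x => CZ.ext fun n => ?_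
    rw [F1_sw_apply, one_apply_eq_self, one_apply_eq_self, F1_row_apply,
      Nat.pair_unpair]
  · intro T T'
    refine ContinuousLinearMap.ext fun x => CZ.ext fun n => ?_
    show F1_sw 𝕜 (T * T') x n = F1_sw 𝕜 T (F1_sw 𝕜 T' x) n
    rw [F1_sw_apply, F1_sw_apply, F1_row_sw]
    rfl
  · refine ContinuousLinearMap.ext fun x => CZ.ext fun n => ?_
    rfl
  · intro T T'
    refine ContinuousLinearMap.ext fun x => CZ.ext fun n => ?_
    rfl
  · refine ContinuousLinearMap.ext fun x => CZ.ext fun n => ?_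
    show F1_row 𝕜 0 (v0 x) n = x n
    rw [F1_row_apply, ev0, Nat.unpair_pair, if_pos rfl]
  · refine ContinuousLinearMap.ext fun x => CZ.ext fun n => ?_
    show w1 (v1 x) n = x n
    rw [ew1, ev1, Nat.unpair_pair, if_neg (Nat.succ_ne_zero _)]
    show x (Nat.pair ((Nat.unpair n).1 + 1 - 1) (Nat.unpair n).2) = x n
    rw [Nat.add_sub_cancel, Nat.pair_unpair]
  · refine ContinuousLinearMap.ext fun x => CZ.ext fun n => ?_
    show F1_row 𝕜 0 (v1 x) n = 0
    rw [F1_row_apply, ev1, Nat.unpair_pair, if_pos rfl]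
  · refine ContinuousLinearMap.ext fun x => CZ.ext fun n => ?_
    show w1 (v0 x) n = 0
    rw [ew1, ev0, Nat.unpair_pair, if_neg (Nat.succ_ne_zero _)]
  · refine ContinuousLinearMap.ext fun x => CZ.ext fun n => ?_
    show (v0 (F1_row 𝕜 0 x) + v1 (w1 x)) n = x n
    rw [hadd, ev0, ev1]
    by_cases h : (Nat.unpair n).1 = 0
    · rw [if_pos h, if_pos h, F1_row_apply, add_zero]
      conv_rhs => rw [← Nat.pair_unpair n, h]
    · rw [if_neg h, if_neg h, zero_add, ew1, Nat.unpair_pair]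
      show x (Nat.pair ((Nat.unpair n).1 - 1 + 1) (Nat.unpair n).2) = x n
      rw [Nat.sub_add_cancel (Nat.one_le_iff_ne_zero.2 h), Nat.pair_unpair]
  · intro T
    refine ContinuousLinearMap.ext fun x => CZ.ext fun n => ?_
    show F1_sw 𝕜 T x n = (v0 (T (F1_row 𝕜 0 x)) + v1 (F1_sw 𝕜 T (w1 x))) n
    rw [hadd, ev0, ev1]
    by_cases h : (Nat.unpair n).1 = 0
    · rw [if_pos h, if_pos h, add_zero, F1_sw_apply, h]
    · rw [if_neg h, if_neg h, zero_add, F1_sw_apply, F1_sw_apply, Nat.unpair_pair]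
      show T (F1_row 𝕜 (Nat.unpair n).1 x) (Nat.unpair n).2 =
        T (F1_row 𝕜 ((Nat.unpair n).1 - 1) (w1 x)) (Nat.unpair n).2
      have h1 : F1_row 𝕜 ((Nat.unpair n).1 - 1) (w1 x) = F1_row 𝕜 (Nat.unpair n).1 x := by
        apply CZ.ext
        intro j
        rw [F1_row_apply, ew1, Nat.unpair_pair, F1_row_apply]
        show x (Nat.pair ((Nat.unpair n).1 - 1 + 1) j) = x (Nat.pair (Nat.unpair n).1 j)
        rw [Nat.sub_add_cancel (Nat.one_le_iff_ne_zero.2 h)]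
      rw [h1]

end Pool.Agent.MP8c9cbf
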