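import Pool.Agent.Lib.MP_8c9cbf_an.F.Emb
import Pool.Agent.Lib.MP_8c9cbf_an.F.Dbl

/-! Row F4: Pełczyński's theorem for `c_0`. -/

namespace Pool.Agent.MP8c9cbf

open Finset Filter Topology

variable {𝕜 : Type} [RCLike 𝕜]

/-- if `Y` has a complemented copy of `c_0` then `Y ≅ Y × c_0`.  With `v u = 1`, `F = u v` and
`s0, s1, t0, t1` from `exists_double`: `Φ (y, x) = y - F y + u (s0 (v y) + s1 x)`,
`Ψ y = (y - F y + u (t0 (v y)), t1 (v y))`. -/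
theorem absorb {Y : Type*} [NormedAddCommGroup Y] [NormedSpace 𝕜 Y] (h : HasC0 𝕜 Y) :
    Nonempty (Y ≃L[𝕜] Y × CZ 𝕜) := by
  obtain ⟨u, v, huv⟩ := h
  have hvu : ∀ x, v (u x) = x := fun x => DFunLike.congr_fun huv x
  obtain ⟨s0, s1, t0, t1, h00, h11, h01, h10, hst⟩ := exists_double 𝕜
  let Ψ : Y →L[𝕜] Y × CZ 𝕜 :=
    (ContinuousLinearMap.id 𝕜 Y - u.comp v + u.comp (t0.comp v)).prod (t1.comp v)
  let Φ : Y × CZ 𝕜 →L[𝕜] Y :=
    (ContinuousLinearMap.id 𝕜 Y - u.comp v).comp (ContinuousLinearMap.fst 𝕜 Y (CZ 𝕜)) +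
      u.comp ((s0.comp v).comp (ContinuousLinearMap.fst 𝕜 Y (CZ 𝕜)) +
        s1.comp (ContinuousLinearMap.snd 𝕜 Y (CZ 𝕜)))
  have hΨ : ∀ y, Ψ y = (y - u (v y) + u (t0 (v y)), t1 (v y)) := fun y => rfl
  have hΦ : ∀ p, Φ p = p.1 - u (v p.1) + u (s0 (v p.1) + s1 p.2) := fun p => rfl
  refine ⟨ContinuousLinearEquiv.equivOfInverse Ψ Φ (fun y => ?_) (fun p => ?_)⟩
  · rw [hΨ, hΦ]
    have h1 : v (y - u (v y) + u (t0 (v y))) = t0 (v y) := by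
      rw [map_add, map_sub, hvu, hvu, sub_self, zero_add]
    simp only
    rw [h1, hst]
    abel
  · rw [hΦ, hΨ]
    have h1 : v (p.1 - u (v p.1) + u (s0 (v p.1) + s1 p.2)) = s0 (v p.1) + s1 p.2 := by
      rw [map_add, map_sub, hvu, hvu, sub_self, zero_add]
    rw [h1]
    have h2 : t0 (s0 (v p.1) + s1 p.2) = v p.1 := by rw [map_add, h00, h01, add_zero]
    have h3 : t1 (s0 (v p.1) + s1 p.2) = p.2 := by rw [map_add, h10, h11, zero_add]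
    rw [h2, h3]
    refine Prod.ext ?_ rfl
    simp only
    abel

/-- `c_0 × c_0 ≅ c_0` -/
theorem CZ.prod_iso : Nonempty ((CZ 𝕜 × CZ 𝕜) ≃L[𝕜] CZ 𝕜) := by
  obtain ⟨s0, s1, t0, t1, h00, h11, h01, h10, hst⟩ := exists_double 𝕜
  let Ψ : CZ 𝕜 →L[𝕜] CZ 𝕜 × CZ 𝕜 := t0.prod t1
  let Φ : CZ 𝕜 × CZ 𝕜 →L[𝕜] CZ 𝕜 :=
    s0.comp (ContinuousLinearMap.fst 𝕜 (CZ 𝕜) (CZ 𝕜)) +
      s1.comp (ContinuousLinearMap.snd 𝕜 (CZ 𝕜) (CZ 𝕜))
  have hΨ : ∀ x, Ψ x = (t0 x, t1 x) := fun x => rfl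
  have hΦ : ∀ p, Φ p = s0 p.1 + s1 p.2 := fun p => rfl
  refine ⟨ContinuousLinearEquiv.equivOfInverse Φ Ψ (fun p => ?_) (fun x => ?_)⟩
  · rw [hΦ, hΨ, map_add, map_add, h00, h01, h10, h11, add_zero, zero_add]
  · rw [hΨ, hΦ, hst]

/-- if `Y` is a retract of `c_0` then `Y × c_0 ≅ c_0`.  With `E = a b` (an idempotent of `L(c_0)`)
and `σ, v0, v1, w0, w1` from `exists_swindle`: `Φ (y, x) = v0 (a y) + v1 (σ E x) + σ (1 - E) x`,
`Ψ x = (b (w0 (σ E x)), w1 (σ E x) + σ (1 - E) x)`; the relations used are `σ E v0 = v0 E`,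
`σ E v1 = v1 σ E`, `w0 σ E = E w0`, `w1 σ E = σ E w1`, and the same for `1 - E`. -/
theorem swindle {Y : Type*} [NormedAddCommGroup Y] [NormedSpace 𝕜 Y]
    (a : Y →L[𝕜] CZ 𝕜) (b : CZ 𝕜 →L[𝕜] Y) (hba : ∀ y, b (a y) = y) :
    Nonempty ((Y × CZ 𝕜) ≃L[𝕜] CZ 𝕜) := by
  obtain ⟨σ, v0, v1, w0, w1, hw0v0, hw1v1, hw0v1, hw1v0, hsum, hσ⟩ := exists_swindle 𝕜
  have e00 : ∀ x, w0 (v0 x) = x := fun x => DFunLike.congr_fun hw0v0 x
  have e11 : ∀ x, w1 (v1 x) = x := fun x => DFunLike.congr_fun hw1v1 x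
  have e01 : ∀ x, w0 (v1 x) = 0 := fun x => DFunLike.congr_fun hw0v1 x
  have e10 : ∀ x, w1 (v0 x) = 0 := fun x => DFunLike.congr_fun hw1v0 x
  have eS : ∀ x, v0 (w0 x) + v1 (w1 x) = x := fun x => DFunLike.congr_fun hsum x
  have eσ : ∀ (T : CZ 𝕜 →L[𝕜] CZ 𝕜) (x), σ T x = v0 (T (w0 x)) + v1 (σ T (w1 x)) :=
    fun T x => DFunLike.congr_fun (hσ T) x
  -- the commutation relations
  have r1 : ∀ (T : CZ 𝕜 →L[𝕜] CZ 𝕜) (x), σ T (v0 x) = v0 (T x) := fun T x => by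
    rw [eσ, e00, e10, map_zero, map_zero, add_zero]
  have r2 : ∀ (T : CZ 𝕜 →L[𝕜] CZ 𝕜) (x), σ T (v1 x) = v1 (σ T x) := fun T x => by
    rw [eσ, e01, e11, map_zero, map_zero, zero_add]
  have r3 : ∀ (T : CZ 𝕜 →L[𝕜] CZ 𝕜) (x), w0 (σ T x) = T (w0 x) := fun T x => by
    rw [eσ, map_add, e00, e01, add_zero]
  have r4 : ∀ (T : CZ 𝕜 →L[𝕜] CZ 𝕜) (x), w1 (σ T x) = σ T (w1 x) := fun T x => by
    rw [eσ, map_add, e10, e11, zero_add]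
  set E : CZ 𝕜 →L[𝕜] CZ 𝕜 := a.comp b with hE
  have hEx : ∀ x, E x = a (b x) := fun x => rfl
  have hEE : E * E = E := by
    apply ContinuousLinearMap.ext
    intro x
    change a (b (a (b x))) = a (b x)
    rw [hba]
  have hEa : ∀ y, E (a y) = a y := fun y => by rw [hEx, hba]
  have hSS : ∀ x, σ E (σ E x) = σ E x := by
    intro x
    have h1 : σ E * σ E = σ E := by rw [← map_mul, hEE]
    exact DFunLike.congr_fun h1 x
  have hS' : ∀ x, σ (1 - E) x = x - σ E x := by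
    intro x
    have h0 : (1 - E) + E = 1 := by
      apply ContinuousLinearMap.ext
      intro z
      change (z - E z) + E z = z
      exact sub_add_cancel _ _
    have h1 : σ (1 - E) + σ E = 1 := by rw [← σ.map_add, h0, σ.map_one]
    have h2 : σ (1 - E) x + σ E x = x := DFunLike.congr_fun h1 x
    exact eq_sub_of_add_eq h2
  let Ψ : CZ 𝕜 →L[𝕜] Y × CZ 𝕜 :=
    (b.comp (w0.comp (σ E))).prod (w1.comp (σ E) + σ (1 - E))
  let Φ : Y × CZ 𝕜 →L[𝕜] CZ 𝕜 :=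
    (v0.comp a).comp (ContinuousLinearMap.fst 𝕜 Y (CZ 𝕜)) +
      (v1.comp (σ E) + σ (1 - E)).comp (ContinuousLinearMap.snd 𝕜 Y (CZ 𝕜))
  have hΨ : ∀ x, Ψ x = (b (w0 (σ E x)), w1 (σ E x) + (x - σ E x)) := by
    intro x
    rw [← hS']
    rfl
  have hΦ : ∀ p, Φ p = v0 (a p.1) + (v1 (σ E p.2) + (p.2 - σ E p.2)) := by
    intro p
    rw [← hS']
    rfl
  refine ⟨ContinuousLinearEquiv.equivOfInverse Φ Ψ (fun p => ?_) (fun x => ?_)⟩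
  · have h1 : σ E (Φ p) = v0 (a p.1) + v1 (σ E p.2) := by
      rw [hΦ, map_add, map_add, map_sub, r1, r2, hSS, hEa, sub_self, add_zero]
    rw [hΨ, h1]
    have h2 : w0 (v0 (a p.1) + v1 (σ E p.2)) = a p.1 := by rw [map_add, e00, e01, add_zero]
    have h3 : w1 (v0 (a p.1) + v1 (σ E p.2)) = σ E p.2 := by rw [map_add, e10, e11, zero_add]
    rw [h2, h3, hba, hΦ]
    refine Prod.ext rfl ?_
    simp only
    abel
  · have h1 : a (Ψ x).1 = w0 (σ E x) := by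
      rw [hΨ]
      change a (b (w0 (σ E x))) = _
      rw [← hEx, ← r3, hSS]
    have h2 : σ E (Ψ x).2 = w1 (σ E x) := by
      rw [hΨ]
      change σ E (w1 (σ E x) + (x - σ E x)) = _
      rw [map_add, map_sub, hSS, sub_self, add_zero, ← r4, hSS]
    rw [hΦ, h1, h2, hΨ]
    change v0 (w0 (σ E x)) + (v1 (w1 (σ E x)) + (w1 (σ E x) + (x - σ E x) - w1 (σ E x))) = x
    rw [← add_assoc, eS]
    abel

/-- **Pełczyński.** An infinite dimensional retract of `c_0` is isomorphic to `c_0`. -/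
theorem pelczynski {Y : Type*} [NormedAddCommGroup Y] [NormedSpace 𝕜 Y] [CompleteSpace Y]
    (a : Y →L[𝕜] CZ 𝕜) (b : CZ 𝕜 →L[𝕜] Y) (hba : ∀ y, b (a y) = y)
    (hY : ¬ FiniteDimensional 𝕜 Y) : Nonempty (Y ≃L[𝕜] CZ 𝕜) := by
  obtain ⟨e1⟩ := absorb (hasC0_of_retract a b hba hY)
  obtain ⟨e2⟩ := swindle a b hba
  exact ⟨e1.trans e2⟩

end Pool.Agent.MP8c9cbf
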