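import Pool.Agent.Lib.MP_8c9cbf_an.F.Defs

/-! Row F5: a fast converging series of operators through `c_0` factors through `c_0`. -/

namespace Pool.Agent.MP8c9cbf

open Finset Filter Topology

variable {𝕜 : Type} [RCLike 𝕜]

theorem F5_row_tendsto (i : ℕ) (u : CZ 𝕜) :
    Tendsto (fun j => CZ.co (Nat.pair i j) u) atTop (𝓝 0) := by
  refine (CZ.tendsto u).comp ?_
  refine tendsto_atTop_mono (fun j => Nat.right_le_pair i j) tendsto_id

/-- the `i`-th row of an element of `c_0(ℕ × ℕ)` -/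
noncomputable def F5_row (𝕜 : Type) [RCLike 𝕜] (i : ℕ) : CZ 𝕜 →L[𝕜] CZ 𝕜 :=
  CZ.lift (fun j => CZ.co (Nat.pair i j)) 1 zero_le_one
    (fun j u => by rw [one_mul]; exact CZ.norm_coord_le u _) (F5_row_tendsto i)

theorem F5_row_apply (i : ℕ) (u : CZ 𝕜) (j : ℕ) : F5_row 𝕜 i u j = u (Nat.pair i j) := rfl

theorem F5_row_norm (i : ℕ) (u : CZ 𝕜) : ‖F5_row 𝕜 i u‖ ≤ ‖u‖ :=
  CZ.norm_le _ (norm_nonneg _) fun j => by
    rw [F5_row_apply]
    exact CZ.norm_coord_le u _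

/-- rows which are small uniformly form an element of `c_0(ℕ × ℕ)` -/
theorem F5_tendsto (r : ℕ → CZ 𝕜) (D : ℝ) (hr : ∀ i, ‖r i‖ ≤ D * (1 / 2) ^ i) :
    Tendsto (fun k => r (Nat.unpair k).1 (Nat.unpair k).2) atTop (𝓝 0) := by
  rw [Metric.tendsto_atTop]
  intro ε hε
  have h1 : Tendsto (fun i : ℕ => D * (1 / 2 : ℝ) ^ i) atTop (𝓝 (D * 0)) :=
    (tendsto_pow_atTop_nhds_zero_of_lt_one (by norm_num) (by norm_num)).const_mul D
  rw [mul_zero] at h1
  obtain ⟨N, hN⟩ := Filter.eventually_atTop.1 (h1.eventually (gt_mem_nhds hε))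
  have h2 : ∀ i, ∃ M, ∀ j ≥ M, ‖r i j‖ < ε := by
    intro i
    obtain ⟨M, hM⟩ := Metric.tendsto_atTop.1 (CZ.tendsto (r i)) ε hε
    exact ⟨M, fun j hj => by simpa using hM j hj⟩
  choose M hM using h2
  refine ⟨(N + (range N).sup M + 1) ^ 2, fun k hk => ?_⟩
  rw [dist_zero_right]
  rcases le_or_gt N (Nat.unpair k).1 with h | h
  · exact lt_of_le_of_lt ((CZ.norm_coord_le _ _).trans (hr _)) (hN _ h)
  · refine hM _ _ ?_
    by_contra h3
    push Not at h3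
    have h4 : M (Nat.unpair k).1 ≤ (range N).sup M := Finset.le_sup (Finset.mem_range.2 h)
    have h5 := Nat.pair_lt_max_add_one_sq (Nat.unpair k).1 (Nat.unpair k).2
    rw [Nat.pair_unpair] at h5
    have h6 : max (Nat.unpair k).1 (Nat.unpair k).2 + 1 ≤ N + (range N).sup M + 1 := by
      have : max (Nat.unpair k).1 (Nat.unpair k).2 ≤ N + (range N).sup M :=
        max_le (by omega) (by omega)
      omega
    have h7 := Nat.pow_le_pow_left h6 2
    omega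

/-- `a x (i, j) = α_i x j` is a map into `c_0(ℕ × ℕ) ≅ c_0` (since `‖α_i x‖ ≤ C 2^(-i) ‖x‖`),
`b u = Σ_i β_i (u (i, ·))`. -/
theorem fac_of_series {X Y : Type*} [NormedAddCommGroup X] [NormedSpace 𝕜 X]
    [NormedAddCommGroup Y] [NormedSpace 𝕜 Y] [CompleteSpace Y]
    (α : ℕ → X →L[𝕜] CZ 𝕜) (β : ℕ → CZ 𝕜 →L[𝕜] Y) (C : ℝ)
    (hα : ∀ i x, ‖α i x‖ ≤ C * (1 / 2) ^ i * ‖x‖) (hβ : ∀ i u, ‖β i u‖ ≤ C * (1 / 2) ^ i * ‖u‖)
    (T : X →L[𝕜] Y) (hT : ∀ x, HasSum (fun i => β i (α i x)) (T x)) : Fac T := by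
  have hp : ∀ i : ℕ, (0 : ℝ) < (1 / 2) ^ i := fun i => by positivity
  have hp1 : ∀ i : ℕ, ((1 : ℝ) / 2) ^ i ≤ 1 := fun i => pow_le_one₀ (by norm_num) (by norm_num)
  have hD : (0 : ℝ) ≤ |C| := abs_nonneg C
  have hα' : ∀ i x, ‖α i x‖ ≤ |C| * ‖x‖ * (1 / 2) ^ i := fun i x =>
    (hα i x).trans (by
      have := mul_le_mul_of_nonneg_right (le_abs_self C) (mul_nonneg (hp i).le (norm_nonneg x))
      nlinarith)
  let a : X →L[𝕜] CZ 𝕜 := CZ.lift
    (fun k => (CZ.co (Nat.unpair k).2).comp (α (Nat.unpair k).1)) |C| hD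
    (fun k x => by
      refine (CZ.norm_coord_le _ _).trans ((hα' _ x).trans ?_)
      exact mul_le_of_le_one_right (mul_nonneg hD (norm_nonneg x)) (hp1 _))
    (fun x => F5_tendsto (fun i => α i x) (|C| * ‖x‖) fun i => hα' i x)
  have hS : Summable fun i => (β i).comp (F5_row 𝕜 i) := by
    have hg : Summable fun i : ℕ => |C| * (1 / 2 : ℝ) ^ i :=
      (summable_geometric_of_lt_one (by norm_num) (by norm_num)).mul_left _
    refine Summable.of_norm_bounded (E := CZ 𝕜 →L[𝕜] Y) hg fun i => ?_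
    refine ContinuousLinearMap.opNorm_le_bound _ (mul_nonneg hD (hp i).le) fun u => ?_
    refine (hβ i _).trans ?_
    have h1 : C * (1 / 2) ^ i ≤ |C| * (1 / 2) ^ i :=
      mul_le_mul_of_nonneg_right (le_abs_self C) (hp i).le
    exact (mul_le_mul_of_nonneg_right h1 (norm_nonneg _)).trans
      (mul_le_mul_of_nonneg_left (F5_row_norm i u) (mul_nonneg hD (hp i).le))
  refine ⟨a, ∑' i, (β i).comp (F5_row 𝕜 i), ?_⟩
  ext x
  have h1 : HasSum (fun i => ((β i).comp (F5_row 𝕜 i)) (a x))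
      ((∑' i, (β i).comp (F5_row 𝕜 i)) (a x)) :=
    hS.hasSum.mapL (ContinuousLinearMap.apply 𝕜 Y (a x))
  have h2 : ∀ i, F5_row 𝕜 i (a x) = α i x := by
    intro i
    refine CZ.ext fun j => ?_
    rw [F5_row_apply]
    change (α (Nat.unpair (Nat.pair i j)).1 x) (Nat.unpair (Nat.pair i j)).2 = _
    rw [Nat.unpair_pair]
  have h3 : (fun i => ((β i).comp (F5_row 𝕜 i)) (a x)) = fun i => β i (α i x) := by
    funext i
    rw [ContinuousLinearMap.comp_apply, h2]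
  rw [h3] at h1
  exact (hT x).unique h1

end Pool.Agent.MP8c9cbf
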