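import Pool.Agent.Lib.MP_8c9cbf_an.F.Alg1
import Pool.Agent.Lib.MP_8c9cbf_an.F.Alg2
import Pool.Agent.Lib.MP_8c9cbf_an.F.Pel
import Pool.Agent.Lib.MP_8c9cbf_an.F.Series

/-! Row F6c: every bounded operator is a unique scalar plus an operator factoring through `c_0`. -/

namespace Pool.Agent.MP8c9cbf

open Finset Filter Topology

variable {𝕜 : Type} [RCLike 𝕜]

theorem F6_fin_CZ : ¬ FiniteDimensional 𝕜 (CZ 𝕜) := by
  intro h
  have hl : LinearIndependent 𝕜 (CZ.dl : ℕ → CZ 𝕜) := by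
    rw [linearIndependent_iff']
    intro s g hg i hi
    have h1 := F2_sum_apply s g i
    rw [hg, if_pos hi] at h1
    exact h1.symm
  have : Finite ℕ := hl.finite
  exact not_finite ℕ

namespace FS

variable {X : Type} [NormedAddCommGroup X] [NormedSpace 𝕜 X] (F : FS 𝕜 X)

include F

/-- choose `n_0 < n_1 < ...` with `‖(I - Q n_j) W‖ ≤ 4^(-j)`;
`W x = Q n_0 W x + Σ_j (Q n_(j+1) - Q n_j) W x` and
`(Q n_(j+1) - Q n_j) W = B n_(j+1) ∘ A n_(j+1) ∘ (I - Q n_j) W`; use `fac_of_series` with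
`α_j = 2^j A n_(j+1) (I - Q n_j) W`, `β_j = 2^(-j) B n_(j+1)`, and `Fac.add`. -/
theorem fac_of_Gd [CompleteSpace X] {W : X →L[𝕜] X} (hW : F.Gd W) : Fac W := by
  have h0 : ∀ j : ℕ, ∃ n0 : ℕ, ∀ n ≥ n0, ∀ x, ‖W x - F.Q n (W x)‖ ≤ (1 / 4 : ℝ) ^ j * ‖x‖ :=
    fun j => hW _ (by positivity)
  choose f hf using h0
  obtain ⟨N, hNmono, hNf⟩ : ∃ N : ℕ → ℕ, (∀ j, N j ≤ N (j + 1)) ∧ ∀ j, f j ≤ N j := by
    refine ⟨fun j => ∑ i ∈ range (j + 1), f i, fun j => ?_, fun j => ?_⟩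
    · beta_reduce
      rw [Finset.sum_range_succ f (j + 1)]
      exact Nat.le_add_right _ _
    · beta_reduce
      rw [Finset.sum_range_succ]
      exact Nat.le_add_left _ _
  have hN : ∀ j x, ‖W x - F.Q (N j) (W x)‖ ≤ (1 / 4 : ℝ) ^ j * ‖x‖ := fun j x => hf j _ (hNf j) x
  have hC : (0 : ℝ) ≤ |F.C| := abs_nonneg _
  have hCl := le_abs_self F.C
  let V : ℕ → X →L[𝕜] X := fun j => W - (F.Q (N j)).comp W
  have hV : ∀ j x, V j x = W x - F.Q (N j) (W x) := fun j x => rfl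
  have hQ : ∀ j x, F.B (N (j + 1)) (F.A (N (j + 1)) (V j x))
      = F.Q (N (j + 1)) (W x) - F.Q (N j) (W x) := by
    intro j x
    rw [F.BA, hV, map_sub, F.QQ, min_eq_right (hNmono j)]
  have hsplit : W = (F.Q (N 0)).comp W + V 0 := by
    ext x
    rw [add_apply, ContinuousLinearMap.comp_apply, hV]
    abel
  have h1 : Fac ((F.Q (N 0)).comp W) := by
    refine ⟨(F.A (N 0)).comp W, F.B (N 0), ?_⟩
    ext x
    rw [ContinuousLinearMap.comp_apply, ContinuousLinearMap.comp_apply,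
      ContinuousLinearMap.comp_apply, F.BA]
  have h2c : ∀ j : ℕ, ((2 : 𝕜) ^ j) * ((2 : 𝕜)⁻¹ ^ j) = 1 := fun j => by
    rw [← mul_pow, mul_inv_cancel₀ (by norm_num), one_pow]
  have h2n : ∀ j : ℕ, ‖(2 : 𝕜) ^ j‖ = 2 ^ j := fun j => by
    rw [norm_pow, RCLike.norm_two]
  have h2n' : ∀ j : ℕ, ‖(2 : 𝕜)⁻¹ ^ j‖ = (1 / 2) ^ j := fun j => by
    rw [norm_pow, norm_inv, RCLike.norm_two, one_div]
  have h2 : Fac (V 0) := by
    refine fac_of_series (fun j => ((2 : 𝕜) ^ j) • (F.A (N (j + 1))).comp (V j))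
      (fun j => ((2 : 𝕜)⁻¹ ^ j) • F.B (N (j + 1))) |F.C| ?_ ?_ (V 0) ?_
    · intro j x
      rw [smul_apply, ContinuousLinearMap.comp_apply, norm_smul, h2n]
      have e1 : ‖F.A (N (j + 1)) (V j x)‖ ≤ |F.C| * ((1 / 4 : ℝ) ^ j * ‖x‖) := by
        refine (F.nA _ _).trans ?_
        refine (mul_le_mul_of_nonneg_right hCl (norm_nonneg _)).trans ?_
        exact mul_le_mul_of_nonneg_left (hN j x) hC
      calc 2 ^ j * ‖F.A (N (j + 1)) (V j x)‖ ≤ 2 ^ j * (|F.C| * ((1 / 4 : ℝ) ^ j * ‖x‖)) :=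
            mul_le_mul_of_nonneg_left e1 (by positivity)
        _ = |F.C| * (2 ^ j * (1 / 4 : ℝ) ^ j) * ‖x‖ := by ring
        _ = |F.C| * (1 / 2) ^ j * ‖x‖ := by
            rw [← mul_pow]; norm_num
    · intro j u
      rw [smul_apply, norm_smul, h2n']
      have e1 : ‖F.B (N (j + 1)) u‖ ≤ |F.C| * ‖u‖ :=
        (F.nB _ _).trans (mul_le_mul_of_nonneg_right hCl (norm_nonneg _))
      calc (1 / 2) ^ j * ‖F.B (N (j + 1)) u‖ ≤ (1 / 2) ^ j * (|F.C| * ‖u‖) :=
            mul_le_mul_of_nonneg_left e1 (by positivity)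
        _ = |F.C| * (1 / 2) ^ j * ‖u‖ := by ring
    · intro x
      have e0 : ∀ j, ((2 : 𝕜)⁻¹ ^ j • F.B (N (j + 1)))
          (((2 : 𝕜) ^ j • (F.A (N (j + 1))).comp (V j)) x)
          = F.Q (N (j + 1)) (W x) - F.Q (N j) (W x) := by
        intro j
        rw [smul_apply, smul_apply,
          ContinuousLinearMap.comp_apply, map_smul, smul_smul, mul_comm, h2c, one_smul, hQ]
      simp only [e0]
      have hs : Summable fun j => F.Q (N (j + 1)) (W x) - F.Q (N j) (W x) := by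
        have hg : Summable fun j : ℕ => 2 * ‖x‖ * (1 / 4 : ℝ) ^ j :=
          (summable_geometric_of_lt_one (by norm_num) (by norm_num)).mul_left _
        refine Summable.of_norm_bounded hg fun j => ?_
        have e1 : F.Q (N (j + 1)) (W x) - F.Q (N j) (W x)
            = (W x - F.Q (N j) (W x)) - (W x - F.Q (N (j + 1)) (W x)) := by abel
        rw [e1]
        refine (norm_sub_le _ _).trans ?_
        have e2 := hN j x
        have e3 := hN (j + 1) x
        have e4 : (1 / 4 : ℝ) ^ (j + 1) * ‖x‖ ≤ (1 / 4 : ℝ) ^ j * ‖x‖ :=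
          mul_le_mul_of_nonneg_right
            (pow_le_pow_of_le_one (by norm_num) (by norm_num) (Nat.le_succ j)) (norm_nonneg x)
        calc _ ≤ (1 / 4 : ℝ) ^ j * ‖x‖ + (1 / 4 : ℝ) ^ j * ‖x‖ :=
              add_le_add e2 (e3.trans e4)
          _ = _ := by ring
      rw [hs.hasSum_iff_tendsto_nat]
      have e5 : ∀ m, ∑ j ∈ range m, (F.Q (N (j + 1)) (W x) - F.Q (N j) (W x))
          = V 0 x - (W x - F.Q (N m) (W x)) := by
        intro m
        rw [Finset.sum_range_sub (fun j => F.Q (N j) (W x)) m, hV]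
        abel
      simp only [e5]
      have e6 : Tendsto (fun m => W x - F.Q (N m) (W x)) atTop (𝓝 0) := by
        refine squeeze_zero_norm (fun m => hN m x) ?_
        have := (tendsto_pow_atTop_nhds_zero_of_lt_one (show (0 : ℝ) ≤ 1 / 4 by norm_num)
          (by norm_num)).mul_const ‖x‖
        rwa [zero_mul] at this
      have e7 := e6.const_sub (V 0 x)
      rwa [sub_zero] at e7
  rw [hsplit]
  exact h1.add h2

/-- `X` is not isomorphic to `X × X`: otherwise there are `a0, a1, b0, b1` in `L(X)` with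
`b_i a_j = δ_ij`, and `lam` is multiplicative and unital with commutative values -/
theorem not_iso_prod : ¬ Nonempty (X ≃L[𝕜] X × X) := by
  rintro ⟨e⟩
  let a0 : X →L[𝕜] X := (e.symm : X × X →L[𝕜] X).comp (ContinuousLinearMap.inl 𝕜 X X)
  let a1 : X →L[𝕜] X := (e.symm : X × X →L[𝕜] X).comp (ContinuousLinearMap.inr 𝕜 X X)
  let b0 : X →L[𝕜] X := (ContinuousLinearMap.fst 𝕜 X X).comp (e : X →L[𝕜] X × X)
  let b1 : X →L[𝕜] X := (ContinuousLinearMap.snd 𝕜 X X).comp (e : X →L[𝕜] X × X)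
  have h00 : b0.comp a0 = ContinuousLinearMap.id 𝕜 X := by ext x; simp [a0, b0]
  have h01 : b0.comp a1 = 0 := by ext x; simp [a1, b0]
  have h11 : b1.comp a1 = ContinuousLinearMap.id 𝕜 X := by ext x; simp [a1, b1]
  have l0 : F.lam (0 : X →L[𝕜] X) = 0 := by
    have h := F.lam_smul (0 : 𝕜) (0 : X →L[𝕜] X)
    rwa [zero_smul, zero_mul] at h
  have l00 := F.lam_comp b0 a0
  have l01 := F.lam_comp b0 a1
  have l11 := F.lam_comp b1 a1
  rw [h00, F.lam_one] at l00
  rw [h01, l0] at l01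
  rw [h11, F.lam_one] at l11
  rcases mul_eq_zero.1 l01.symm with h | h
  · rw [h, zero_mul] at l00
    exact one_ne_zero l00
  · rw [h, mul_zero] at l11
    exact one_ne_zero l11

/-- `X` is infinite dimensional (it contains `c_0`: `R 0 J 0 = 1`) -/
theorem infinite_dim : ¬ FiniteDimensional 𝕜 X := by
  intro h
  refine F6_fin_CZ (𝕜 := 𝕜) ?_
  refine FiniteDimensional.of_injective (F.J 0).toLinearMap ?_
  exact Function.LeftInverse.injective (g := F.R 0) fun u => F.RJ 0 u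

/-- the identity of `X` does not factor through `c_0`: otherwise `X ≅ c_0` (`pelczynski`) and
`X ≅ X × X` -/
theorem not_fac_id [CompleteSpace X] : ¬ Fac (ContinuousLinearMap.id 𝕜 X) := by
  rintro ⟨a, b, hab⟩
  have hba : ∀ y, b (a y) = y := fun y => by
    rw [← ContinuousLinearMap.comp_apply, ← hab, ContinuousLinearMap.id_apply]
  obtain ⟨e⟩ := pelczynski a b hba F.infinite_dim
  obtain ⟨d⟩ := CZ.prod_iso (𝕜 := 𝕜)
  exact F.not_iso_prod ⟨e.trans (d.symm.trans (e.symm.prodCongr e.symm))⟩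

/-- if `W = lam W + W'` factors through `c_0`, so does `lam W • 1`, so `lam W = 0` -/
theorem Gd_iff_fac [CompleteSpace X] (W : X →L[𝕜] X) : F.Gd W ↔ Fac W := by
  refine ⟨F.fac_of_Gd, fun h => ?_⟩
  have h1 := F.fac_of_Gd (F.lam_spec W)
  have h2 : Fac (F.lam W • ContinuousLinearMap.id 𝕜 X) := by
    have h3 := h.sub h1
    rwa [sub_sub_cancel] at h3
  have h3 : F.lam W = 0 := by
    by_contra hne
    have h4 := h2.smul (F.lam W)⁻¹
    rw [smul_smul, inv_mul_cancel₀ hne, one_smul] at h4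
    exact F.not_fac_id h4
  have h5 := F.lam_spec W
  rwa [h3, zero_smul, sub_zero] at h5

theorem not_iso_c0 [CompleteSpace X] : ¬ Nonempty (X ≃L[𝕜] CZ 𝕜) := by
  rintro ⟨e⟩
  refine F.not_fac_id ⟨(e : X →L[𝕜] CZ 𝕜), (e.symm : CZ 𝕜 →L[𝕜] X), ?_⟩
  ext x
  simp

/-- every bounded operator is a unique scalar plus an operator factoring through `c_0` -/
theorem operators [CompleteSpace X] (T : X →L[𝕜] X) :
    ∃! c : 𝕜, Fac (T - c • ContinuousLinearMap.id 𝕜 X) := by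
  refine ⟨F.lam T, F.fac_of_Gd (F.lam_spec T), fun c hc => ?_⟩
  exact (F.lam_unique ((F.Gd_iff_fac _).2 hc)).symm

end FS

end Pool.Agent.MP8c9cbf
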