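import Pool.Agent.Lib.MP_8c9cbf_an.F.Dbl

/-! Row F6a: the ideal of operators factoring through `c_0` (sums by `exists_double`). -/

namespace Pool.Agent.MP8c9cbf

open Finset Filter Topology

variable {𝕜 : Type} [RCLike 𝕜]

section

variable {X Y Z : Type*} [NormedAddCommGroup X] [NormedSpace 𝕜 X] [NormedAddCommGroup Y]
  [NormedSpace 𝕜 Y] [NormedAddCommGroup Z] [NormedSpace 𝕜 Z]

theorem Fac.comp_left {T : X →L[𝕜] Y} (h : Fac T) (U : Y →L[𝕜] Z) : Fac (U.comp T) := by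
  obtain ⟨a, b, rfl⟩ := h
  exact ⟨a, U.comp b, rfl⟩

theorem Fac.comp_right {T : Y →L[𝕜] Z} (h : Fac T) (U : X →L[𝕜] Y) : Fac (T.comp U) := by
  obtain ⟨a, b, rfl⟩ := h
  exact ⟨a.comp U, b, rfl⟩

theorem Fac.zero : Fac (0 : X →L[𝕜] Y) := by
  refine ⟨0, 0, ?_⟩
  ext x
  simp

theorem Fac.smul {T : X →L[𝕜] Y} (h : Fac T) (c : 𝕜) : Fac (c • T) := by
  obtain ⟨a, b, rfl⟩ := h
  exact ⟨a, c • b, rfl⟩

theorem Fac.neg {T : X →L[𝕜] Y} (h : Fac T) : Fac (-T) := by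
  obtain ⟨a, b, rfl⟩ := h
  exact ⟨a, -b, rfl⟩

theorem Fac.add {T U : X →L[𝕜] Y} (hT : Fac T) (hU : Fac U) : Fac (T + U) := by
  obtain ⟨a, b, rfl⟩ := hT
  obtain ⟨a', b', rfl⟩ := hU
  obtain ⟨s0, s1, t0, t1, h00, h11, h01, h10, -⟩ := exists_double 𝕜
  refine ⟨s0.comp a + s1.comp a', b.comp t0 + b'.comp t1, ?_⟩
  ext x
  simp only [ContinuousLinearMap.add_apply, ContinuousLinearMap.comp_apply, map_add, h00, h11,
    h01, h10, map_zero, add_zero, zero_add]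

theorem Fac.sub {T U : X →L[𝕜] Y} (hT : Fac T) (hU : Fac U) : Fac (T - U) := by
  rw [sub_eq_add_neg]
  exact hT.add hU.neg

theorem Fac.sum {ι : Type*} (s : Finset ι) (T : ι → X →L[𝕜] Y) (h : ∀ i ∈ s, Fac (T i)) :
    Fac (∑ i ∈ s, T i) := by
  classical
  induction s using Finset.induction_on with
  | empty =>
    rw [Finset.sum_empty]
    exact Fac.zero
  | insert i s hi ih =>
    rw [Finset.sum_insert hi]
    exact (h i (Finset.mem_insert_self i s)).add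
      (ih fun j hj => h j (Finset.mem_insert_of_mem hj))

theorem fac_of_dom (T : CZ 𝕜 →L[𝕜] Y) : Fac T := by
  exact ⟨ContinuousLinearMap.id 𝕜 (CZ 𝕜), T, by ext x; rfl⟩

theorem fac_of_cod (T : X →L[𝕜] CZ 𝕜) : Fac T := by
  exact ⟨T, ContinuousLinearMap.id 𝕜 (CZ 𝕜), by ext x; rfl⟩

end

end Pool.Agent.MP8c9cbf
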