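import Pool.Agent.Lib.MP_8c9cbf_an.F.Defs

/-! Row F2: operators from `c_0` given by the images of the unit vectors. -/

namespace Pool.Agent.MP8c9cbf

open Finset Filter Topology

variable {𝕜 : Type} [RCLike 𝕜]

/-- the coordinates of a finite combination of the unit vectors -/
theorem F2_sum_apply (s : Finset ℕ) (u : ℕ → 𝕜) (m : ℕ) :
    (∑ k ∈ s, u k • (CZ.dl k : CZ 𝕜)) m = if m ∈ s then u m else 0 := by
  have h : (∑ k ∈ s, u k • (CZ.dl k : CZ 𝕜)) m = CZ.co m (∑ k ∈ s, u k • (CZ.dl k : CZ 𝕜)) := rfl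
  rw [h, map_sum]
  have h2 : ∀ k ∈ s, CZ.co m (u k • (CZ.dl k : CZ 𝕜)) = if m = k then u k else 0 := by
    intro k _
    rw [map_smul, CZ.co_apply, CZ.dl_apply, smul_eq_mul, mul_ite, mul_one, mul_zero]
  rw [Finset.sum_congr rfl h2, Finset.sum_ite_eq]

theorem F2_norm_sum_le (s : Finset ℕ) (u : ℕ → 𝕜) (C : ℝ) (hC : 0 ≤ C) (h : ∀ k ∈ s, ‖u k‖ ≤ C) :
    ‖∑ k ∈ s, u k • (CZ.dl k : CZ 𝕜)‖ ≤ C := by
  refine CZ.norm_le _ hC fun m => ?_
  rw [F2_sum_apply]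
  split_ifs with hm
  · exact h m hm
  · rw [norm_zero]; exact hC

/-- the finitely supported sequences are dense: `x = Σ x_k dl_k` -/
theorem CZ.hasSum (x : CZ 𝕜) : HasSum (fun k => x k • (CZ.dl k : CZ 𝕜)) x := by
  rw [HasSum, SummationFilter.unconditional_filter, Metric.tendsto_atTop]
  intro ε hε
  obtain ⟨N, hN⟩ := Metric.tendsto_atTop.1 (CZ.tendsto x) (ε / 2) (by linarith)
  refine ⟨Finset.range N, fun s hs => ?_⟩
  rw [dist_eq_norm]
  refine lt_of_le_of_lt (CZ.norm_le _ (C := ε / 2) (by linarith) fun m => ?_) (by linarith)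
  have h1 : (∑ k ∈ s, x k • (CZ.dl k : CZ 𝕜) - x) m
      = (∑ k ∈ s, x k • (CZ.dl k : CZ 𝕜)) m - x m := rfl
  rw [h1, F2_sum_apply]
  split_ifs with hm
  · rw [sub_self, norm_zero]; linarith
  · rw [zero_sub, norm_neg]
    have h2 : N ≤ m := by
      by_contra h3
      exact hm (hs (Finset.mem_range.2 (not_le.1 h3)))
    have h4 := hN m h2
    rw [dist_zero_right] at h4
    exact h4.le

/-- sums with small coefficients -/
theorem F2_small {Y : Type*} [NormedAddCommGroup Y] [NormedSpace 𝕜 Y]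
    (y : ℕ → Y) (C : ℝ)
    (h : ∀ (s : Finset ℕ) (u : ℕ → 𝕜), (∀ k, ‖u k‖ ≤ 1) → ‖∑ k ∈ s, u k • y k‖ ≤ C)
    (s : Finset ℕ) (x : ℕ → 𝕜) (δ : ℝ) (hδ : 0 ≤ δ) (hx : ∀ k ∈ s, ‖x k‖ ≤ δ) :
    ‖∑ k ∈ s, x k • y k‖ ≤ C * δ := by
  rcases hδ.eq_or_lt with h0 | h0
  · have h1 : ∑ k ∈ s, x k • y k = 0 := by
      refine Finset.sum_eq_zero fun k hk => ?_
      have h2 := hx k hk
      rw [← h0] at h2
      rw [norm_le_zero_iff.1 h2, zero_smul]
    rw [h1, norm_zero, ← h0, mul_zero]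
  · have hδ' : (δ : 𝕜) ≠ 0 := by exact_mod_cast h0.ne'
    have h1 := h s (fun k => if k ∈ s then (δ : 𝕜)⁻¹ * x k else 0) (fun k => by
      split_ifs with hk
      · rw [norm_mul, norm_inv, RCLike.norm_ofReal, abs_of_pos h0, inv_mul_le_iff₀ h0, mul_one]
        exact hx k hk
      · rw [norm_zero]; exact zero_le_one)
    have h2 : ∑ k ∈ s, x k • y k
        = (δ : 𝕜) • ∑ k ∈ s, (if k ∈ s then (δ : 𝕜)⁻¹ * x k else 0) • y k := by
      rw [Finset.smul_sum]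
      refine Finset.sum_congr rfl fun k hk => ?_
      rw [if_pos hk, smul_smul, mul_inv_cancel_left₀ hδ']
    rw [h2, norm_smul, RCLike.norm_ofReal, abs_of_pos h0, mul_comm]
    exact mul_le_mul_of_nonneg_right h1 hδ

/-- an operator from `c_0` with `U dl_k = y_k`, if the finite sums `Σ_(k ∈ s) u_k y_k`,
`|u_k| ≤ 1`, are bounded by `C`.  (The series `Σ x_k y_k` is Cauchy: its sums over finite sets
outside `{k : ε < |x_k|}` are at most `C ε`.) -/
theorem exists_op {Y : Type*} [NormedAddCommGroup Y] [NormedSpace 𝕜 Y] [CompleteSpace Y]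
    (y : ℕ → Y) (C : ℝ) (hC : 0 ≤ C)
    (h : ∀ (s : Finset ℕ) (u : ℕ → 𝕜), (∀ k, ‖u k‖ ≤ 1) → ‖∑ k ∈ s, u k • y k‖ ≤ C) :
    ∃ U : CZ 𝕜 →L[𝕜] Y, (∀ k, U (CZ.dl k) = y k) ∧ (∀ x, ‖U x‖ ≤ C * ‖x‖) ∧
      ∀ x, HasSum (fun k => x k • y k) (U x) := by
  have hS : ∀ x : CZ 𝕜, Summable fun k => x k • y k := by
    intro x
    rw [summable_iff_vanishing_norm]
    intro ε hε
    have hδ : 0 < ε / (C + 1) := by positivity
    obtain ⟨N, hN⟩ := Metric.tendsto_atTop.1 (CZ.tendsto x) (ε / (C + 1)) hδ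
    refine ⟨Finset.range N, fun t ht => ?_⟩
    refine lt_of_le_of_lt (F2_small y C h t x (ε / (C + 1)) hδ.le fun k hk => ?_) ?_
    · have h2 : N ≤ k := by
        by_contra h3
        exact Finset.disjoint_left.1 ht hk (Finset.mem_range.2 (not_le.1 h3))
      have h4 := hN k h2
      rw [dist_zero_right] at h4
      exact h4.le
    · rw [mul_div_assoc', div_lt_iff₀ (by positivity)]
      nlinarith
  have hb : ∀ x : CZ 𝕜, ‖∑' k, x k • y k‖ ≤ C * ‖x‖ := by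
    intro x
    refine le_of_tendsto (hS x).hasSum.norm (Filter.Eventually.of_forall fun s => ?_)
    exact F2_small y C h s x ‖x‖ (norm_nonneg x) fun k _ => CZ.norm_coord_le x k
  refine ⟨LinearMap.mkContinuous
    { toFun := fun x => ∑' k, x k • y k
      map_add' := fun x z => by
        rw [← (hS x).tsum_add (hS z)]
        refine tsum_congr fun k => ?_
        rw [ZeroAtInftyContinuousMap.add_apply, add_smul]
      map_smul' := fun c x => by
        rw [RingHom.id_apply, ← (hS x).tsum_const_smul c]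
        refine tsum_congr fun k => ?_
        rw [ZeroAtInftyContinuousMap.smul_apply, smul_smul, smul_eq_mul] } C hb, ?_, hb, ?_⟩
  · intro k
    change ∑' m, (CZ.dl k : CZ 𝕜) m • y m = y k
    rw [tsum_eq_single k fun m hm => by rw [CZ.dl_apply, if_neg hm, zero_smul]]
    rw [CZ.dl_apply, if_pos rfl, one_smul]
  · exact fun x => (hS x).hasSum

/-- a functional on `c_0` is given by an absolutely summable sequence -/
theorem exists_dual_CZ (φ : CZ 𝕜 →L[𝕜] 𝕜) : Summable (fun k => ‖φ (CZ.dl k)‖) ∧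
    (∑' k, ‖φ (CZ.dl k)‖) ≤ ‖φ‖ ∧ ∀ x, HasSum (fun k => x k * φ (CZ.dl k)) (φ x) := by
  have h1 : ∀ s : Finset ℕ, ∑ k ∈ s, ‖φ (CZ.dl k)‖ ≤ ‖φ‖ := by
    intro s
    have hu : ∀ k, ∃ u : 𝕜, ‖u‖ ≤ 1 ∧ u * φ (CZ.dl k) = (‖φ (CZ.dl k)‖ : 𝕜) := by
      intro k
      by_cases h0 : φ (CZ.dl k) = 0
      · exact ⟨0, by rw [norm_zero]; exact zero_le_one, by rw [h0, norm_zero, mul_zero]; simp⟩
      · have hn : (‖φ (CZ.dl k)‖ : ℝ) ≠ 0 := norm_ne_zero_iff.2 h0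
        refine ⟨(‖φ (CZ.dl k)‖ : 𝕜) * (φ (CZ.dl k))⁻¹, ?_, ?_⟩
        · rw [norm_mul, norm_inv, RCLike.norm_ofReal, abs_norm, mul_inv_cancel₀ hn]
        · rw [mul_assoc, inv_mul_cancel₀ h0, mul_one]
    choose u hu1 hu2 using hu
    have h2 := φ.le_opNorm (∑ k ∈ s, u k • (CZ.dl k : CZ 𝕜))
    have h3 := F2_norm_sum_le s u 1 zero_le_one fun k _ => hu1 k
    have h4 : φ (∑ k ∈ s, u k • (CZ.dl k : CZ 𝕜)) = ((∑ k ∈ s, ‖φ (CZ.dl k)‖ : ℝ) : 𝕜) := by
      rw [map_sum, RCLike.ofReal_sum]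
      refine Finset.sum_congr rfl fun k _ => ?_
      rw [map_smul, smul_eq_mul, hu2]
    rw [h4, RCLike.norm_ofReal, abs_of_nonneg (Finset.sum_nonneg fun _ _ => norm_nonneg _)] at h2
    refine h2.trans ?_
    calc ‖φ‖ * ‖∑ k ∈ s, u k • (CZ.dl k : CZ 𝕜)‖ ≤ ‖φ‖ * 1 :=
          mul_le_mul_of_nonneg_left h3 (norm_nonneg φ)
      _ = ‖φ‖ := mul_one _
  refine ⟨summable_of_sum_le (fun _ => norm_nonneg _) h1,
    Real.tsum_le_of_sum_le (fun _ => norm_nonneg _) h1, fun x => ?_⟩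
  have h2 := (CZ.hasSum x).mapL φ
  refine h2.congr_fun ?_
  intro k
  rw [map_smul, smul_eq_mul]

end Pool.Agent.MP8c9cbf
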