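import Mathlib

/-!
# Abstract part of project C0R: definitions

`CZ 𝕜` is the space `c_0`; `Fac T` says that `T` factors through `c_0`; `FS 𝕜 X` is the abstract
structure (projections `Q n` with `Q n X` a copy of `c_0`, fibre maps `J n`, `R n`, coordinates
`e k`, scalar-plus property) from which rigidity follows.
-/

namespace Pool.Agent.MP8c9cbf

open Finset Filter Topology

/-- the space `c_0` over `𝕜` -/
abbrev CZ (𝕜 : Type) [RCLike 𝕜] := ZeroAtInftyContinuousMap ℕ 𝕜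

namespace CZ

variable {𝕜 : Type} [RCLike 𝕜]

theorem norm_coord_le (z : CZ 𝕜) (n : ℕ) : ‖z n‖ ≤ ‖z‖ := by
  rw [← ZeroAtInftyContinuousMap.norm_toBCF_eq_norm]
  exact z.toBCF.norm_coe_le_norm n

theorem norm_le (z : CZ 𝕜) {C : ℝ} (hC : 0 ≤ C) (h : ∀ n, ‖z n‖ ≤ C) : ‖z‖ ≤ C := by
  rw [← ZeroAtInftyContinuousMap.norm_toBCF_eq_norm]
  exact (BoundedContinuousFunction.norm_le hC).2 h

theorem tendsto (z : CZ 𝕜) : Tendsto (fun n => z n) atTop (𝓝 0) := by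
  have h := z.zero_at_infty'
  rw [Filter.cocompact_eq_cofinite, Nat.cofinite_eq_atTop] at h
  exact h

/-- a null sequence as an element of `c_0` -/
def mk (x : ℕ → 𝕜) (hx : Tendsto x atTop (𝓝 0)) : CZ 𝕜 :=
  ⟨⟨x, continuous_of_discreteTopology⟩, by
    rw [Filter.cocompact_eq_cofinite, Nat.cofinite_eq_atTop]; exact hx⟩

@[simp] theorem mk_apply (x : ℕ → 𝕜) (hx : Tendsto x atTop (𝓝 0)) (n : ℕ) : mk x hx n = x n := rfl

/-- the coordinate functionals of `c_0` -/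
noncomputable def co (n : ℕ) : CZ 𝕜 →L[𝕜] 𝕜 :=
  LinearMap.mkContinuous
    { toFun := fun z => z n
      map_add' := fun _ _ => rfl
      map_smul' := fun _ _ => rfl } 1
    (fun z => by rw [one_mul]; exact norm_coord_le z n)

@[simp] theorem co_apply (n : ℕ) (z : CZ 𝕜) : co n z = z n := rfl

/-- a linear map into `c_0` from coordinate functionals tending to zero pointwise -/
noncomputable def lift {X : Type*} [NormedAddCommGroup X] [NormedSpace 𝕜 X]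
    (f : ℕ → X →L[𝕜] 𝕜) (C : ℝ) (hC : 0 ≤ C) (hf : ∀ n x, ‖f n x‖ ≤ C * ‖x‖)
    (h0 : ∀ x, Tendsto (fun n => f n x) atTop (𝓝 0)) : X →L[𝕜] CZ 𝕜 :=
  LinearMap.mkContinuous
    { toFun := fun x => mk (fun n => f n x) (h0 x)
      map_add' := fun x y => by
        apply ZeroAtInftyContinuousMap.ext; intro n
        simp
      map_smul' := fun c x => by
        apply ZeroAtInftyContinuousMap.ext; intro n
        simp } C
    (fun x => norm_le _ (by positivity) (fun n => hf n x))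

@[simp] theorem lift_apply {X : Type*} [NormedAddCommGroup X] [NormedSpace 𝕜 X]
    (f : ℕ → X →L[𝕜] 𝕜) (C : ℝ) (hC : 0 ≤ C) (hf : ∀ n x, ‖f n x‖ ≤ C * ‖x‖)
    (h0 : ∀ x, Tendsto (fun n => f n x) atTop (𝓝 0)) (x : X) (n : ℕ) :
    lift f C hC hf h0 x n = f n x := rfl

theorem norm_lift_le {X : Type*} [NormedAddCommGroup X] [NormedSpace 𝕜 X]
    (f : ℕ → X →L[𝕜] 𝕜) (C : ℝ) (hC : 0 ≤ C) (hf : ∀ n x, ‖f n x‖ ≤ C * ‖x‖)
    (h0 : ∀ x, Tendsto (fun n => f n x) atTop (𝓝 0)) : ‖lift f C hC hf h0‖ ≤ C :=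
  LinearMap.mkContinuous_norm_le _ hC _

/-- the unit vectors of `c_0` -/
noncomputable def dl (n : ℕ) : CZ 𝕜 :=
  mk (fun m => if m = n then 1 else 0) (by
    refine tendsto_const_nhds.congr' ?_
    filter_upwards [Filter.eventually_gt_atTop n] with m hm
    rw [if_neg (by omega)])

@[simp] theorem dl_apply (n m : ℕ) : (dl n : CZ 𝕜) m = if m = n then 1 else 0 := rfl

theorem ext {x y : CZ 𝕜} (h : ∀ n, x n = y n) : x = y := ZeroAtInftyContinuousMap.ext h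

end CZ

section

variable {𝕜 : Type} [RCLike 𝕜]

/-- `T` factors through `c_0` -/
def Fac {X Y : Type*} [NormedAddCommGroup X] [NormedSpace 𝕜 X] [NormedAddCommGroup Y]
    [NormedSpace 𝕜 Y] (T : X →L[𝕜] Y) : Prop :=
  ∃ (a : X →L[𝕜] CZ 𝕜) (b : CZ 𝕜 →L[𝕜] Y), T = b.comp a

/-- `c_0` is (isomorphic to) a complemented subspace of `Y` -/
def HasC0 (𝕜 : Type) [RCLike 𝕜] (Y : Type*) [NormedAddCommGroup Y] [NormedSpace 𝕜 Y] : Prop :=
  ∃ (u : CZ 𝕜 →L[𝕜] Y) (v : Y →L[𝕜] CZ 𝕜), v.comp u = ContinuousLinearMap.id 𝕜 (CZ 𝕜)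

end

/-- the abstract structure: `Q n` are projections, `Q n = B n ∘ A n` through `c_0`, `e k` are
coordinate functionals, `rk k` the rank of the `k`-th coordinate; `R n ∘ J n = 1` on `c_0`,
`R n ∘ Q n = 0`; every operator is a scalar plus `W` with `‖(I - Q n) W‖ → 0`; every functional `φ`
satisfies `‖φ (I - Q n)‖ → 0`. -/
structure FS (𝕜 X : Type) [RCLike 𝕜] [NormedAddCommGroup X] [NormedSpace 𝕜 X] where
  Q : ℕ → X →L[𝕜] X
  A : ℕ → X →L[𝕜] CZ 𝕜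
  B : ℕ → CZ 𝕜 →L[𝕜] X
  J : ℕ → CZ 𝕜 →L[𝕜] X
  R : ℕ → X →L[𝕜] CZ 𝕜
  e : ℕ → X →L[𝕜] 𝕜
  rk : ℕ → ℕ
  C : ℝ
  nA : ∀ n x, ‖A n x‖ ≤ C * ‖x‖
  nB : ∀ n u, ‖B n u‖ ≤ C * ‖u‖
  nJ : ∀ n u, ‖J n u‖ ≤ C * ‖u‖
  nR : ∀ n x, ‖R n x‖ ≤ C * ‖x‖
  ne : ∀ k x, ‖e k x‖ ≤ C * ‖x‖
  BA : ∀ n x, B n (A n x) = Q n x
  RJ : ∀ n u, R n (J n u) = u
  RQ : ∀ n x, R n (Q n x) = 0
  QQ : ∀ m n x, Q m (Q n x) = Q (min m n) x
  Q_tendsto : ∀ x, Tendsto (fun n => Q n x) atTop (𝓝 x)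
  A_apply : ∀ n x k, A n x k = if rk k < n then e k x else 0
  e_B : ∀ n u k, rk k < n → e k (B n u) = u k
  sc : ∀ T : X →L[𝕜] X, ∃ c : 𝕜, ∀ ε : ℝ, 0 < ε → ∃ n0 : ℕ, ∀ n ≥ n0, ∀ x,
    ‖(T x - c • x) - Q n (T x - c • x)‖ ≤ ε * ‖x‖
  shr : ∀ φ : X →L[𝕜] 𝕜, ∀ ε : ℝ, 0 < ε → ∃ n0 : ℕ, ∀ n ≥ n0, ∀ x,
    ‖φ (x - Q n x)‖ ≤ ε * ‖x‖

end Pool.Agent.MP8c9cbf
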