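import Pool.Agent.Lib.MP_8c9cbf_an.F.Bas

/-! Row F9: the dual of `X` is isomorphic to `ℓ_1`. -/

namespace Pool.Agent.MP8c9cbf

open Finset Filter Topology

variable {𝕜 : Type} [RCLike 𝕜]

namespace FS

variable {X : Type} [NormedAddCommGroup X] [NormedSpace 𝕜 X] (F : FS 𝕜 X)

theorem F9_C_nonneg : 0 ≤ F.C := by
  by_contra h
  rw [not_le] at h
  have h1 : ∀ x : X, x = 0 := by
    intro x
    have h2 := F.ne 0 x
    have h3 := norm_nonneg (F.e 0 x)
    have h4 : ‖x‖ ≤ 0 := by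
      by_contra h5
      rw [not_le] at h5
      nlinarith
    exact norm_le_zero_iff.1 h4
  have h2 := F.RJ 0 (CZ.dl 0)
  rw [h1 (F.J 0 (CZ.dl 0)), map_zero] at h2
  have h3 : (0 : CZ 𝕜) 0 = (CZ.dl 0 : CZ 𝕜) 0 := by rw [h2]
  rw [CZ.dl_apply, if_pos rfl] at h3
  exact zero_ne_one h3

theorem F9_norm_e (k : ℕ) : ‖F.e k‖ ≤ F.C :=
  ContinuousLinearMap.opNorm_le_bound _ F.F9_C_nonneg (F.ne k)

theorem F9_lp_summable (a : lp (fun _ : ℕ => 𝕜) 1) : Summable fun k => ‖a k‖ := by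
  have h := (lp.memℓp a).summable (by simp)
  simpa using h

theorem F9_lp_norm (a : lp (fun _ : ℕ => 𝕜) 1) : ‖a‖ = ∑' k, ‖a k‖ := by
  rw [lp.norm_eq_tsum_rpow (by simp)]
  simp

theorem F9_summable (a : lp (fun _ : ℕ => 𝕜) 1) : Summable fun k => a k • F.e k := by
  refine Summable.of_norm_bounded (g := fun k => ‖a k‖ * F.C)
    ((F9_lp_summable a).mul_right _) fun k => ?_
  rw [norm_smul]
  exact mul_le_mul_of_nonneg_left (F.F9_norm_e k) (norm_nonneg _)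

theorem F9_norm_tsum (a : lp (fun _ : ℕ => 𝕜) 1) : ‖∑' k, a k • F.e k‖ ≤ F.C * ‖a‖ := by
  have h1 : Summable fun k => ‖a k‖ * F.C := (F9_lp_summable a).mul_right _
  refine (tsum_of_norm_bounded h1.hasSum fun k => ?_).trans ?_
  · rw [norm_smul]
    exact mul_le_mul_of_nonneg_left (F.F9_norm_e k) (norm_nonneg _)
  · rw [tsum_mul_right, F9_lp_norm, mul_comm]

/-- the map `a ↦ Σ a_k e_k` -/
noncomputable def F9_L : lp (fun _ : ℕ => 𝕜) 1 →L[𝕜] StrongDual 𝕜 X :=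
  LinearMap.mkContinuous
    { toFun := fun a => ∑' k, a k • F.e k
      map_add' := fun a b => by
        rw [← (F.F9_summable a).tsum_add (F.F9_summable b)]
        refine tsum_congr fun k => ?_
        exact add_smul (a k) (b k) (F.e k)
      map_smul' := fun c a => by
        rw [RingHom.id_apply, ← (F.F9_summable a).tsum_const_smul c]
        refine tsum_congr fun k => ?_
        exact mul_smul c (a k) (F.e k) } F.C F.F9_norm_tsum

theorem F9_L_hasSum (a : lp (fun _ : ℕ => 𝕜) 1) (x : X) :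
    HasSum (fun k => a k * F.e k x) (F.F9_L a x) := by
  have h := (F.F9_summable a).hasSum
  have h2 := h.mapL ((ContinuousLinearMap.apply 𝕜 𝕜 x))
  exact h2

/-- `Σ_(k < N) |a_k| - C² Σ_(k ≥ N) |a_k| ≤ C ‖L a‖` -/
theorem F9_lower_N (a : lp (fun _ : ℕ => 𝕜) 1) (N : ℕ) :
    ∑ k ∈ Finset.range N, ‖a k‖ ≤ F.C * ‖F.F9_L a‖ + F.C * F.C * ∑' k, ‖a (k + N)‖ := by
  have hC := F.F9_C_nonneg
  obtain ⟨n, hn⟩ : ∃ n, ∀ k ∈ Finset.range N, F.rk k < n :=
    ⟨(Finset.range N).sup F.rk + 1, fun k hk => Nat.lt_succ_of_le (Finset.le_sup hk)⟩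
  have hu : ∀ k, ∃ u : 𝕜, ‖u‖ ≤ 1 ∧ a k * u = (‖a k‖ : 𝕜) := by
    intro k
    by_cases h0 : a k = 0
    · exact ⟨0, by rw [norm_zero]; exact zero_le_one, by rw [h0, norm_zero, mul_zero]; simp⟩
    · have hn' : (‖a k‖ : ℝ) ≠ 0 := norm_ne_zero_iff.2 h0
      refine ⟨(‖a k‖ : 𝕜) * (a k)⁻¹, ?_, ?_⟩
      · rw [norm_mul, norm_inv, RCLike.norm_ofReal, abs_norm, mul_inv_cancel₀ hn']
      · rw [mul_comm, mul_assoc, inv_mul_cancel₀ h0, mul_one]
  choose u hu1 hu2 using hu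
  set w : CZ 𝕜 := ∑ k ∈ Finset.range N, u k • (CZ.dl k : CZ 𝕜) with hw
  have hwn : ‖w‖ ≤ 1 := F2_norm_sum_le _ u 1 zero_le_one fun k _ => hu1 k
  have hwk : ∀ m, w m = if m ∈ Finset.range N then u m else 0 := fun m =>
    F2_sum_apply (Finset.range N) u m
  have hx : ‖F.B n w‖ ≤ F.C := by
    refine (F.nB n w).trans ?_
    nlinarith
  have hs := F.F9_L_hasSum a (F.B n w)
  have h1 : F.F9_L a (F.B n w) = ∑ k ∈ Finset.range N, a k * F.e k (F.B n w)
      + ∑' k, a (k + N) * F.e (k + N) (F.B n w) := by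
    rw [← hs.tsum_eq]
    exact (hs.summable.sum_add_tsum_nat_add N).symm
  have h2 : ∑ k ∈ Finset.range N, a k * F.e k (F.B n w)
      = ((∑ k ∈ Finset.range N, ‖a k‖ : ℝ) : 𝕜) := by
    rw [RCLike.ofReal_sum]
    refine Finset.sum_congr rfl fun k hk => ?_
    rw [F.e_B n w k (hn k hk), hwk k, if_pos hk, hu2]
  have hsum : Summable fun k => ‖a (k + N)‖ :=
    (summable_nat_add_iff N).2 (F9_lp_summable a)
  have h3 : ‖∑' k, a (k + N) * F.e (k + N) (F.B n w)‖ ≤ F.C * F.C * ∑' k, ‖a (k + N)‖ := by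
    have h4 : Summable fun k => ‖a (k + N)‖ * (F.C * F.C) := hsum.mul_right _
    refine (tsum_of_norm_bounded h4.hasSum fun k => ?_).trans ?_
    · rw [norm_mul]
      refine mul_le_mul_of_nonneg_left ?_ (norm_nonneg _)
      refine (F.ne (k + N) (F.B n w)).trans ?_
      exact mul_le_mul_of_nonneg_left hx hC
    · rw [tsum_mul_right, mul_comm]
  have h5 : ‖F.F9_L a (F.B n w)‖ ≤ F.C * ‖F.F9_L a‖ := by
    refine ((F.F9_L a).le_opNorm _).trans ?_
    rw [mul_comm F.C]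
    exact mul_le_mul_of_nonneg_left hx (norm_nonneg _)
  have h6 : ‖((∑ k ∈ Finset.range N, ‖a k‖ : ℝ) : 𝕜)‖ = ∑ k ∈ Finset.range N, ‖a k‖ := by
    rw [RCLike.norm_ofReal, abs_of_nonneg (Finset.sum_nonneg fun _ _ => norm_nonneg _)]
  have h7 : ((∑ k ∈ Finset.range N, ‖a k‖ : ℝ) : 𝕜)
      = F.F9_L a (F.B n w) - ∑' k, a (k + N) * F.e (k + N) (F.B n w) := by
    rw [h1, h2]; ring
  rw [← h6, h7]
  refine (norm_sub_le _ _).trans ?_
  exact add_le_add h5 h3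

theorem F9_lower (a : lp (fun _ : ℕ => 𝕜) 1) : ‖a‖ ≤ F.C * ‖F.F9_L a‖ := by
  have h1 : Tendsto (fun N => ∑ k ∈ Finset.range N, ‖a k‖) atTop (𝓝 ‖a‖) := by
    rw [F9_lp_norm]
    exact (F9_lp_summable a).hasSum.tendsto_sum_nat
  have h2 : Tendsto (fun N => F.C * ‖F.F9_L a‖ + F.C * F.C * ∑' k, ‖a (k + N)‖) atTop
      (𝓝 (F.C * ‖F.F9_L a‖ + F.C * F.C * 0)) :=
    ((tendsto_sum_nat_add fun k => ‖a k‖).const_mul _).const_add _
  rw [mul_zero, add_zero] at h2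
  exact le_of_tendsto_of_tendsto' h1 h2 fun N => F.F9_lower_N a N

/-- the sequence of `φ ∘ Q n` -/
theorem F9_approx (φ : StrongDual 𝕜 X) (n : ℕ) :
    ∃ a : lp (fun _ : ℕ => 𝕜) 1, ∀ x, F.F9_L a x = φ (F.Q n x) := by
  obtain ⟨h1, -, h3⟩ := exists_dual_CZ (φ.comp (F.B n))
  have hm : Memℓp (fun k => if F.rk k < n then φ (F.B n (CZ.dl k)) else 0 : ℕ → 𝕜) 1 := by
    refine memℓp_gen ?_
    refine Summable.of_nonneg_of_le (fun k => by positivity) (fun k => ?_) h1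
    rw [ENNReal.toReal_one, Real.rpow_one]
    split_ifs
    · exact le_rfl
    · rw [norm_zero]; exact norm_nonneg _
  refine ⟨⟨_, hm⟩, fun x => ?_⟩
  have h4 := F.F9_L_hasSum ⟨_, hm⟩ x
  have h5 := h3 (F.A n x)
  have h6 : (φ.comp (F.B n)) (F.A n x) = φ (F.Q n x) := by
    rw [ContinuousLinearMap.comp_apply, F.BA]
  rw [h6] at h5
  refine h4.unique ?_
  refine h5.congr_fun ?_
  intro k
  change (if F.rk k < n then φ (F.B n (CZ.dl k)) else 0) * F.e k x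
    = F.A n x k * (φ.comp (F.B n)) (CZ.dl k)
  rw [F.A_apply, ContinuousLinearMap.comp_apply]
  split_ifs
  · exact mul_comm _ _
  · rw [zero_mul, zero_mul]

include F in
/-- `L a = Σ a_k e_k`, `‖L a‖ ≤ C ‖a‖`.  Lower bound `‖a‖_1 ≤ C ‖L a‖`: for `a` in `ℓ_1`, `ε > 0`
take `N` with `Σ_(k ≥ N) |a_k| ≤ ε`, `n > rk k` for `k < N`, `u = Σ_(k < N) sgn(a_k) dl_k`,
`x = B n u`: `|(L a) x| ≥ Σ_(k < N) |a_k| - C (C ε)` and `‖x‖ ≤ C`.  Onto: for `φ` in `X*` put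
`ψ_n = φ ∘ B n`, `a^n_k = ψ_n (dl k)` if `rk k < n`, else `0` (`exists_dual_CZ`);
`φ (Q n x) = ψ_n (A n x) = Σ_k a^n_k e_k x = L a^n x`; `φ ∘ Q n → φ` in norm (field `shr`), so
`a^n` is Cauchy by the lower bound.  (All bounded linear bijections are isomorphisms:
`ContinuousLinearEquiv.ofBijective`, or use the lower bound.) -/
theorem dual_iso [CompleteSpace X] :
    Nonempty (lp (fun _ : ℕ => 𝕜) 1 ≃L[𝕜] StrongDual 𝕜 X) := by
  have hanti : AntilipschitzWith F.C.toNNReal F.F9_L := by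
    refine AddMonoidHomClass.antilipschitz_of_bound _ fun a => ?_
    rw [Real.coe_toNNReal _ F.F9_C_nonneg]
    exact F.F9_lower a
  have hinj : Function.Injective F.F9_L := hanti.injective
  have hcl : IsClosed (Set.range F.F9_L) :=
    (hanti.isClosedEmbedding F.F9_L.uniformContinuous).isClosed_range
  have hsurj : Function.Surjective F.F9_L := by
    intro φ
    have h1 : φ ∈ closure (Set.range F.F9_L) := by
      rw [Metric.mem_closure_iff]
      intro ε hε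
      obtain ⟨n0, hn0⟩ := F.shr φ (ε / 2) (by linarith)
      obtain ⟨a, ha⟩ := F.F9_approx φ n0
      refine ⟨F.F9_L a, ⟨a, rfl⟩, ?_⟩
      rw [dist_eq_norm]
      refine lt_of_le_of_lt (ContinuousLinearMap.opNorm_le_bound _ (by linarith)
        (M := ε / 2) fun x => ?_) (by linarith)
      rw [sub_apply, ha, ← map_sub]
      exact hn0 n0 le_rfl x
    rw [hcl.closure_eq] at h1
    exact h1
  exact ⟨ContinuousLinearEquiv.ofBijective F.F9_L
    (LinearMap.ker_eq_bot.2 hinj) (LinearMap.range_eq_top.2 hsurj)⟩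

end FS

end Pool.Agent.MP8c9cbf
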