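import Pool.Agent.Lib.MP_8c9cbf_an.F.Bas

/-! Row F3: an infinite dimensional complemented subspace of `c_0` contains a complemented copy of
`c_0`. -/

namespace Pool.Agent.MP8c9cbf

open Finset Filter Topology

variable {𝕜 : Type} [RCLike 𝕜]

/-- an operator on a Banach space close to the identity has a two-sided inverse; so if `r ∘ j` is
close to the identity of `c_0` then `c_0` is complemented in `Z` -/
theorem hasC0_of_near {Z : Type*} [NormedAddCommGroup Z] [NormedSpace 𝕜 Z]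
    (r : Z →L[𝕜] CZ 𝕜) (j : CZ 𝕜 →L[𝕜] Z) (δ : ℝ) (hδ : δ < 1) (h : ∀ u, ‖u - r (j u)‖ ≤ δ * ‖u‖) :
    HasC0 𝕜 Z := by
  set t : CZ 𝕜 →L[𝕜] CZ 𝕜 := ContinuousLinearMap.id 𝕜 (CZ 𝕜) - r.comp j with ht
  have h1 : ‖t‖ < 1 := by
    refine lt_of_le_of_lt (ContinuousLinearMap.opNorm_le_bound t (le_max_right δ 0) ?_)
      (max_lt hδ zero_lt_one)
    intro u
    have h2 : t u = u - r (j u) := rfl
    rw [h2]
    exact (h u).trans (mul_le_mul_of_nonneg_right (le_max_left _ _) (norm_nonneg _))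
  set w : (CZ 𝕜 →L[𝕜] CZ 𝕜)ˣ := Units.oneSub t h1 with hw
  have h3 : ((w : (CZ 𝕜 →L[𝕜] CZ 𝕜)ˣ) : CZ 𝕜 →L[𝕜] CZ 𝕜) = r.comp j := by
    rw [hw, Units.val_oneSub, ht]
    exact sub_sub_cancel (1 : CZ 𝕜 →L[𝕜] CZ 𝕜) (r.comp j)
  refine ⟨j.comp ((w⁻¹ : (CZ 𝕜 →L[𝕜] CZ 𝕜)ˣ) : CZ 𝕜 →L[𝕜] CZ 𝕜), r, ?_⟩
  have h4 : ((w : (CZ 𝕜 →L[𝕜] CZ 𝕜)ˣ) : CZ 𝕜 →L[𝕜] CZ 𝕜) *
      ((w⁻¹ : (CZ 𝕜 →L[𝕜] CZ 𝕜)ˣ) : CZ 𝕜 →L[𝕜] CZ 𝕜) = 1 := w.mul_inv
  rw [h3] at h4
  exact h4

/-- the choice of one vector -/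
theorem F3_pick {Y : Type*} [NormedAddCommGroup Y] [NormedSpace 𝕜 Y]
    (a : Y →L[𝕜] CZ 𝕜) (b : CZ 𝕜 →L[𝕜] Y) (hba : ∀ y, b (a y) = y)
    (hY : ¬ FiniteDimensional 𝕜 Y) (n : ℕ) :
    ∃ (y : Y) (i : ℕ), n ≤ i ∧ (∀ l < n, (a y) l = 0) ∧ (a y) i = 1 ∧ ‖a y‖ ≤ 2 := by
  have hker : ∃ y : Y, y ≠ 0 ∧ ∀ l < n, (a y) l = 0 := by
    by_contra hcon
    apply hY
    let f : Y →ₗ[𝕜] (Fin n → 𝕜) :=
      { toFun := fun y l => (a y) l
        map_add' := fun x y => by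
          funext l
          rw [map_add]
          rfl
        map_smul' := fun c x => by
          funext l
          rw [map_smul]
          rfl }
    have hf : Function.Injective f := by
      rw [← LinearMap.ker_eq_bot, LinearMap.ker_eq_bot']
      intro y hy
      by_contra hne
      exact hcon ⟨y, hne, fun l hl => congrFun hy ⟨l, hl⟩⟩
    exact Module.Finite.of_injective f hf
  obtain ⟨y, hy0, hyl⟩ := hker
  have ha0 : a y ≠ 0 := fun h => hy0 (by rw [← hba y, h, map_zero])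
  have hn0 : 0 < ‖a y‖ := norm_pos_iff.2 ha0
  have hi : ∃ i, ‖a y‖ / 2 < ‖(a y) i‖ := by
    by_contra hcon
    have h1 : ‖a y‖ ≤ ‖a y‖ / 2 :=
      CZ.norm_le _ (by positivity) fun i => not_lt.1 fun h => hcon ⟨i, h⟩
    linarith
  obtain ⟨i, hi⟩ := hi
  have hi0 : (a y) i ≠ 0 := by
    intro h
    rw [h, norm_zero] at hi
    linarith
  refine ⟨((a y) i)⁻¹ • y, i, ?_, ?_, ?_, ?_⟩
  · by_contra hlt
    exact hi0 (hyl i (not_le.1 hlt))
  · intro l hl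
    rw [map_smul, ZeroAtInftyContinuousMap.smul_apply, hyl l hl, smul_zero]
  · rw [map_smul, ZeroAtInftyContinuousMap.smul_apply, smul_eq_mul, inv_mul_cancel₀ hi0]
  · rw [map_smul, norm_smul, norm_inv]
    have h1 : 0 < ‖(a y) i‖ := norm_pos_iff.2 hi0
    rw [inv_mul_le_iff₀ h1]
    linarith

/-- the selection of the whole sequence -/
theorem F3_seq {Y : Type*} [NormedAddCommGroup Y] [NormedSpace 𝕜 Y]
    (a : Y →L[𝕜] CZ 𝕜) (b : CZ 𝕜 →L[𝕜] Y) (hba : ∀ y, b (a y) = y)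
    (hY : ¬ FiniteDimensional 𝕜 Y) :
    ∃ (y : ℕ → Y) (i n : ℕ → ℕ), n 0 = 0 ∧ (∀ k, n k ≤ i k) ∧ (∀ k, i k < n (k + 1)) ∧
      (∀ k, ∀ l < n k, (a (y k)) l = 0) ∧ (∀ k, (a (y k)) (i k) = 1) ∧ (∀ k, ‖a (y k)‖ ≤ 2) ∧
      ∀ k, ∀ l ≥ n (k + 1), ‖(a (y k)) l‖ ≤ (1 / 4 : ℝ) ^ (k + 1) := by
  choose Y0 I0 h1 h2 h3 h4 using F3_pick a b hba hY
  have h5 : ∀ n k : ℕ, ∃ n' : ℕ, I0 n < n' ∧
      ∀ l ≥ n', ‖(a (Y0 n)) l‖ ≤ (1 / 4 : ℝ) ^ (k + 1) := by
    intro n k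
    have h6 := (CZ.tendsto (a (Y0 n))).norm
    rw [norm_zero] at h6
    have h7 := h6.eventually (eventually_le_nhds (show (0 : ℝ) < (1 / 4 : ℝ) ^ (k + 1) by positivity))
    obtain ⟨N, hN⟩ := eventually_atTop.1 h7
    exact ⟨max N (I0 n + 1), by omega, fun l hl => hN l ((le_max_left _ _).trans hl)⟩
  choose F hF1 hF2 using h5
  let n : ℕ → ℕ := fun k => Nat.rec 0 (fun k m => F m k) k
  have hn : ∀ k, n (k + 1) = F (n k) k := fun k => rfl
  refine ⟨fun k => Y0 (n k), fun k => I0 (n k), n, rfl, fun k => h1 _, fun k => ?_,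
    fun k => h2 _, fun k => h3 _, fun k => h4 _, fun k l hl => ?_⟩
  · rw [hn]
    exact hF1 _ _
  · rw [hn] at hl
    exact hF2 _ _ l hl

theorem F3_geom : HasSum (fun k : ℕ => (1 / 4 : ℝ) ^ (k + 1)) (1 / 3) := by
  have h := (hasSum_geometric_of_lt_one (show (0 : ℝ) ≤ 1 / 4 by norm_num)
    (by norm_num)).mul_left (1 / 4)
  have h2 : (1 / 4 : ℝ) * (1 - 1 / 4)⁻¹ = 1 / 3 := by norm_num
  rw [h2] at h
  refine h.congr_fun fun k => ?_
  rw [pow_succ]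
  ring

/-- gliding hump.  `a` is bounded below since `b ∘ a = 1`.  As `Y` is infinite dimensional, for
every `n` there is `y ∈ Y` with `(a y) i = 0` for `i < n` and `‖a y‖ = 1`; the norm is attained at
a coordinate.  Choose inductively `n_0 < n_1 < ...`, `y_k` and `i_k ∈ [n_k, n_(k+1))` with
`(a y_k) i = 0` for `i < n_k`, `(a y_k) i_k = 1`, `|(a y_k) i| ≤ 1` for all `i` and
`|(a y_k) i| ≤ 4^(-k-1)` for `i ≥ n_(k+1)`.  Then `‖Σ_(k ∈ s) u_k a y_k‖ ≤ 2` for `|u_k| ≤ 1` (look at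
the coordinate `i ∈ [n_m, n_(m+1))`), so (`exists_op`) there is `U : c_0 → Y` with `U dl_k = y_k`;
`V y := ((a y) i_k)_k`.  `(V (U u))_m = u_m + Σ_(k < m) u_k (a y_k) i_m`, the error is at most
`(1/3) ‖u‖`, use `hasC0_of_near`. -/
theorem hasC0_of_retract {Y : Type*} [NormedAddCommGroup Y] [NormedSpace 𝕜 Y] [CompleteSpace Y]
    (a : Y →L[𝕜] CZ 𝕜) (b : CZ 𝕜 →L[𝕜] Y) (hba : ∀ y, b (a y) = y)
    (hY : ¬ FiniteDimensional 𝕜 Y) : HasC0 𝕜 Y := by
  obtain ⟨y, i, n, hn0, hni, hin, hz, h1, h2, htail⟩ := F3_seq a b hba hY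
  have hmono : StrictMono n := strictMono_nat_of_lt_succ fun k => (hni k).trans_lt (hin k)
  have hik : ∀ k, k ≤ i k := fun k => (hmono.id_le k).trans (hni k)
  -- pointwise bounds of the coordinates
  have hcoord : ∀ l : ℕ, ∃ m, ∀ k, ‖(a (y k)) l‖ ≤
      (1 / 4 : ℝ) ^ (k + 1) + if k = m then 2 else 0 := by
    intro l
    have hex : ∃ m, l < n (m + 1) := ⟨l, lt_of_lt_of_le (Nat.lt_succ_self l) (hmono.id_le _)⟩
    classical
    refine ⟨Nat.find hex, fun k => ?_⟩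
    have hlt : l < n (Nat.find hex + 1) := Nat.find_spec hex
    have hpos : (0 : ℝ) < (1 / 4 : ℝ) ^ (k + 1) := by positivity
    rcases lt_trichotomy k (Nat.find hex) with hk | hk | hk
    · rw [if_neg hk.ne, add_zero]
      exact htail k l (not_lt.1 (Nat.find_min hex hk))
    · rw [if_pos hk]
      have h3 := (CZ.norm_coord_le (a (y k)) l).trans (h2 k)
      linarith
    · rw [if_neg hk.ne', add_zero, hz k l (lt_of_lt_of_le hlt (hmono.monotone (by omega))),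
        norm_zero]
      exact hpos.le
  have hsum : ∀ (s : Finset ℕ) (u : ℕ → 𝕜), (∀ k, ‖u k‖ ≤ 1) →
      ‖∑ k ∈ s, u k • y k‖ ≤ ‖b‖ * 3 := by
    intro s u hu
    have h3 : ‖∑ k ∈ s, u k • a (y k)‖ ≤ 3 := by
      refine CZ.norm_le _ (by norm_num) fun l => ?_
      obtain ⟨m, hm⟩ := hcoord l
      have h4 : (∑ k ∈ s, u k • a (y k)) l = ∑ k ∈ s, u k * (a (y k)) l := by
        have h5 := map_sum (CZ.co l : CZ 𝕜 →L[𝕜] 𝕜) (fun k => u k • a (y k)) s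
        simpa only [CZ.co_apply, ZeroAtInftyContinuousMap.smul_apply, smul_eq_mul] using h5
      rw [h4]
      calc ‖∑ k ∈ s, u k * (a (y k)) l‖ ≤ ∑ k ∈ s, ‖u k * (a (y k)) l‖ := norm_sum_le _ _
        _ ≤ ∑ k ∈ s, ((1 / 4 : ℝ) ^ (k + 1) + if k = m then 2 else 0) := by
            refine Finset.sum_le_sum fun k _ => ?_
            rw [norm_mul]
            calc ‖u k‖ * ‖(a (y k)) l‖ ≤ 1 * ‖(a (y k)) l‖ :=
                  mul_le_mul_of_nonneg_right (hu k) (norm_nonneg _)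
              _ ≤ _ := by rw [one_mul]; exact hm k
        _ = ∑ k ∈ s, (1 / 4 : ℝ) ^ (k + 1) + ∑ k ∈ s, (if k = m then (2 : ℝ) else 0) :=
            Finset.sum_add_distrib
        _ ≤ 1 / 3 + 2 := by
            refine add_le_add ?_ ?_
            · exact sum_le_hasSum s (fun k _ => by positivity) F3_geom
            · rw [Finset.sum_ite_eq']
              split_ifs <;> norm_num
        _ ≤ 3 := by norm_num
    have h6 : ∑ k ∈ s, u k • y k = b (∑ k ∈ s, u k • a (y k)) := by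
      rw [map_sum]
      refine Finset.sum_congr rfl fun k _ => ?_
      rw [map_smul, hba]
    rw [h6]
    exact (b.le_opNorm _).trans (mul_le_mul_of_nonneg_left h3 (norm_nonneg _))
  obtain ⟨U, -, -, hU⟩ := exists_op (𝕜 := 𝕜) y (‖b‖ * 3) (by positivity) hsum
  have hi_top : Tendsto i atTop atTop := tendsto_atTop_mono hik tendsto_id
  refine hasC0_of_near (CZ.lift (fun k => (CZ.co (i k)).comp a) ‖a‖ a.opNorm_nonneg
    (fun k x => ?_) (fun x => ?_)) U (1 / 3) (by norm_num) fun u => ?_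
  · exact (CZ.norm_coord_le (a x) (i k)).trans (a.le_opNorm x)
  · exact (CZ.tendsto (a x)).comp hi_top
  · refine CZ.norm_le _ (by positivity) fun m => ?_
    have h3 : HasSum (fun k => u k * (a (y k)) (i m)) ((a (U u)) (i m)) := by
      have h4 := ((CZ.co (i m) : CZ 𝕜 →L[𝕜] 𝕜).comp a).hasSum (hU u)
      simpa only [ContinuousLinearMap.comp_apply, map_smul, CZ.co_apply, smul_eq_mul,
        Function.comp_def] using h4
    have h4 : HasSum (fun k => if k = m then u m else 0) (u m) := hasSum_ite_eq m (u m)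
    have h5 := h4.sub h3
    have h6 := h5.norm_le_of_bounded (F3_geom.mul_right ‖u‖) fun k => ?_
    · exact h6
    · have hpos : (0 : ℝ) ≤ (1 / 4 : ℝ) ^ (k + 1) * ‖u‖ := by positivity
      rcases lt_trichotomy k m with hk | hk | hk
      · rw [if_neg hk.ne, zero_sub, norm_neg, norm_mul, mul_comm]
        refine mul_le_mul (htail k _ ?_) (CZ.norm_coord_le u k) (norm_nonneg _) (by positivity)
        exact (hmono.monotone (by omega : k + 1 ≤ m)).trans (hni m)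
      · rw [if_pos hk, hk, h1, mul_one, sub_self, norm_zero]
        rw [hk] at hpos
        exact hpos
      · rw [if_neg hk.ne', hz k (i m) ((hin m).trans_le (hmono.monotone (by omega))), mul_zero,
          sub_zero, norm_zero]
        exact hpos

end Pool.Agent.MP8c9cbf
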