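import Pool.Agent.Lib.MP_8c9cbf_an.F.Alg1
import Pool.Agent.Lib.MP_8c9cbf_an.F.Pel

/-! Row F8a: stable isomorphism; rank factorization. -/

namespace Pool.Agent.MP8c9cbf

open Finset Filter Topology

variable {𝕜 : Type} [RCLike 𝕜]

/-- if `α`, `β` are inverse to each other modulo operators factoring through `c_0` then
`Y × c_0 ≅ Y' × c_0`.  Write `β α = 1 + u v` with `v : Y' → c_0`, `u : c_0 → Y'`;
`A y' = (α y', v y')`, `B (y, c) = β y - u c`, `B A = 1`, and `1 - A B` on `Y × c_0` factors through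
`c_0`; so `Y × c_0 ≅ Y' × K` with `K` a retract of `c_0` (`K = ker B`, a closed subspace), and
`K × c_0 ≅ c_0` by `swindle`; now multiply by `c_0` and use `CZ.prod_iso`. -/
theorem stable_iso {Y Y' : Type*} [NormedAddCommGroup Y] [NormedSpace 𝕜 Y] [CompleteSpace Y]
    [NormedAddCommGroup Y'] [NormedSpace 𝕜 Y'] [CompleteSpace Y']
    (α : Y' →L[𝕜] Y) (β : Y →L[𝕜] Y')
    (h1 : Fac (β.comp α - ContinuousLinearMap.id 𝕜 Y'))
    (h2 : Fac (α.comp β - ContinuousLinearMap.id 𝕜 Y)) :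
    Nonempty ((Y × CZ 𝕜) ≃L[𝕜] (Y' × CZ 𝕜)) := by
  obtain ⟨v, u, huv⟩ := h1
  have huv' : ∀ y', β (α y') = y' + u (v y') := fun y' => by
    have := congrArg (fun T : Y' →L[𝕜] Y' => T y') huv
    simp only [sub_apply, ContinuousLinearMap.comp_apply,
      ContinuousLinearMap.id_apply] at this
    rw [← this]
    abel
  let A : Y' →L[𝕜] Y × CZ 𝕜 := α.prod v
  let B : (Y × CZ 𝕜) →L[𝕜] Y' :=
    β.comp (ContinuousLinearMap.fst 𝕜 Y (CZ 𝕜)) - u.comp (ContinuousLinearMap.snd 𝕜 Y (CZ 𝕜))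
  have hA : ∀ y', A y' = (α y', v y') := fun y' => rfl
  have hB : ∀ x : Y × CZ 𝕜, B x = β x.1 - u x.2 := fun x => rfl
  have hBA : ∀ y', B (A y') = y' := fun y' => by
    rw [hA, hB, huv']
    abel
  let P : (Y × CZ 𝕜) →L[𝕜] (Y × CZ 𝕜) := ContinuousLinearMap.id 𝕜 (Y × CZ 𝕜) - A.comp B
  have hP : ∀ x, P x = x - A (B x) := fun x => rfl
  have hBP : ∀ x, B (P x) = 0 := fun x => by rw [hP, map_sub, hBA, sub_self]
  have hFac : Fac P := by
    have e : P = (-((ContinuousLinearMap.inl 𝕜 Y (CZ 𝕜)).comp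
          ((α.comp β - ContinuousLinearMap.id 𝕜 Y).comp (ContinuousLinearMap.fst 𝕜 Y (CZ 𝕜)))) +
        (((ContinuousLinearMap.inl 𝕜 Y (CZ 𝕜)).comp (α.comp u) +
          ContinuousLinearMap.inr 𝕜 Y (CZ 𝕜) +
          (ContinuousLinearMap.inr 𝕜 Y (CZ 𝕜)).comp (v.comp u)).comp
          (ContinuousLinearMap.snd 𝕜 Y (CZ 𝕜)))) -
        (ContinuousLinearMap.inr 𝕜 Y (CZ 𝕜)).comp
          ((v.comp β).comp (ContinuousLinearMap.fst 𝕜 Y (CZ 𝕜))) := by
      refine ContinuousLinearMap.ext fun x => ?_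
      obtain ⟨y, c⟩ := x
      refine Prod.ext ?_ ?_
      · simp only [hP, hB, hA, map_sub, Prod.fst_sub, sub_apply,
          add_apply, neg_apply,
          ContinuousLinearMap.comp_apply, ContinuousLinearMap.coe_fst',
          ContinuousLinearMap.coe_snd', ContinuousLinearMap.id_apply,
          ContinuousLinearMap.inl_apply, ContinuousLinearMap.inr_apply, Prod.fst_add,
          Prod.fst_neg, sub_zero, add_zero]
        abel
      · simp only [hP, hB, hA, map_sub, Prod.snd_sub, sub_apply,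
          add_apply, neg_apply,
          ContinuousLinearMap.comp_apply, ContinuousLinearMap.coe_fst',
          ContinuousLinearMap.coe_snd', ContinuousLinearMap.id_apply,
          ContinuousLinearMap.inl_apply, ContinuousLinearMap.inr_apply, Prod.snd_add,
          Prod.snd_neg, zero_add]
        abel
    rw [e]
    refine Fac.sub (Fac.add ?_ ?_) ?_
    · exact ((h2.comp_right _).comp_left _).neg
    · exact (fac_of_cod _).comp_left _
    · exact (fac_of_cod _).comp_left _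
  obtain ⟨r, q, hrq⟩ := hFac
  have hrq' : ∀ x, q (r x) = P x := fun x => by rw [hrq]; rfl
  let K : Submodule 𝕜 (Y × CZ 𝕜) := LinearMap.ker (B : (Y × CZ 𝕜) →ₗ[𝕜] Y')
  have hK : ∀ x : Y × CZ 𝕜, P x ∈ K := fun x => hBP x
  have hK' : ∀ k : K, B k = 0 := fun k => k.2
  let PK : (Y × CZ 𝕜) →L[𝕜] K := P.codRestrict K hK
  have hPK : ∀ x, (PK x : Y × CZ 𝕜) = P x := fun x => rfl
  obtain ⟨eK⟩ := swindle (𝕜 := 𝕜) (Y := K) (r.comp K.subtypeL) (PK.comp q) (fun k => by
    apply Subtype.ext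
    show P (q (r k)) = k
    rw [hrq', hP, hBP, map_zero, sub_zero, hP, hK', map_zero, sub_zero])
  let e1 : (Y × CZ 𝕜) ≃L[𝕜] (Y' × K) := ContinuousLinearEquiv.equivOfInverse (B.prod PK)
    (A.comp (ContinuousLinearMap.fst 𝕜 Y' K) + K.subtypeL.comp (ContinuousLinearMap.snd 𝕜 Y' K))
    (fun x => by
      show A (B x) + P x = x
      rw [hP]
      abel)
    (fun z => by
      obtain ⟨y', k⟩ := z
      refine Prod.ext ?_ ?_
      · show B (A y' + (k : Y × CZ 𝕜)) = y'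
        rw [map_add, hBA, hK', add_zero]
      · apply Subtype.ext
        show P (A y' + (k : Y × CZ 𝕜)) = k
        rw [hP, map_add, hBA, hK', add_zero]
        abel)
  obtain ⟨e0⟩ := CZ.prod_iso (𝕜 := 𝕜)
  exact ⟨((ContinuousLinearEquiv.refl 𝕜 Y).prodCongr e0.symm).trans
    ((ContinuousLinearEquiv.prodAssoc 𝕜 Y (CZ 𝕜) (CZ 𝕜)).symm.trans
    ((e1.prodCongr (ContinuousLinearEquiv.refl 𝕜 (CZ 𝕜))).trans
    ((ContinuousLinearEquiv.prodAssoc 𝕜 Y' K (CZ 𝕜)).trans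
    ((ContinuousLinearEquiv.refl 𝕜 Y').prodCongr eK))))⟩

/-- rank factorization of an idempotent matrix -/
theorem exists_rank_factor {n : ℕ} (e : Matrix (Fin n) (Fin n) 𝕜) (he : e * e = e) :
    ∃ (k : ℕ) (_ : k ≤ n) (s : Matrix (Fin n) (Fin k) 𝕜) (t : Matrix (Fin k) (Fin n) 𝕜),
      t * s = 1 ∧ s * t = e := by
  let L : (Fin n → 𝕜) →ₗ[𝕜] (Fin n → 𝕜) := Matrix.toLin' e
  have hL : ∀ x, L (L x) = L x := fun x => by
    have h1 : Matrix.toLin' (e * e) = L ∘ₗ L := Matrix.toLin'_mul e e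
    rw [he] at h1
    exact (congrArg (fun T : (Fin n → 𝕜) →ₗ[𝕜] (Fin n → 𝕜) => T x) h1).symm
  let V : Submodule 𝕜 (Fin n → 𝕜) := LinearMap.range L
  let b : Module.Basis (Fin (Module.finrank 𝕜 V)) 𝕜 V := Module.finBasis 𝕜 V
  refine ⟨Module.finrank 𝕜 V, ?_, LinearMap.toMatrix b (Pi.basisFun 𝕜 (Fin n)) V.subtype,
    LinearMap.toMatrix (Pi.basisFun 𝕜 (Fin n)) b L.rangeRestrict, ?_, ?_⟩
  · have := Submodule.finrank_le V
    rwa [Module.finrank_fin_fun] at this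
  · rw [← LinearMap.toMatrix_comp]
    have h1 : L.rangeRestrict ∘ₗ V.subtype = LinearMap.id := by
      refine LinearMap.ext fun x => ?_
      obtain ⟨x, y, rfl⟩ := x
      exact Subtype.ext (hL y)
    rw [h1, LinearMap.toMatrix_id]
  · rw [← LinearMap.toMatrix_comp]
    have h1 : V.subtype ∘ₗ L.rangeRestrict = L := rfl
    rw [h1, LinearMap.toMatrix_eq_toMatrix', LinearMap.toMatrix'_toLin']

end Pool.Agent.MP8c9cbf
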