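import Pool.Agent.Lib.MP_8c9cbf_an.F.Rigid
import Pool.Agent.Lib.MP_8c9cbf_an.F.Pow1

/-! Row F8b: complemented subspaces of `X^n`. -/

namespace Pool.Agent.MP8c9cbf

open Finset Filter Topology

variable {𝕜 : Type} [RCLike 𝕜]

section

variable {X : Type} [NormedAddCommGroup X] [NormedSpace 𝕜 X]

/-- the coordinate projections of `X^n` -/
private noncomputable def F8b_pi {n : ℕ} (i : Fin n) : (Fin n → X) →L[𝕜] X :=
  ContinuousLinearMap.proj i

/-- the coordinate embeddings of `X^n` -/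
private noncomputable def F8b_io {n : ℕ} (i : Fin n) : X →L[𝕜] (Fin n → X) :=
  ContinuousLinearMap.single 𝕜 (fun _ : Fin n => X) i

private theorem F8b_pi_apply {n : ℕ} (i : Fin n) (x : Fin n → X) :
    F8b_pi (𝕜 := 𝕜) i x = x i := rfl

private theorem F8b_pi_io {n : ℕ} (i j : Fin n) (x : X) :
    F8b_pi (𝕜 := 𝕜) i (F8b_io (𝕜 := 𝕜) j x) = if i = j then x else 0 := by
  change (Pi.single j x : Fin n → X) i = _
  rw [Pi.single_apply]

private theorem F8b_sum {n : ℕ} (x : Fin n → X) :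
    ∑ i, F8b_io (𝕜 := 𝕜) i (F8b_pi (𝕜 := 𝕜) i x) = x := by
  change ∑ i, (Pi.single i (x i) : Fin n → X) = x
  exact Finset.univ_sum_single x

/-- the action of a matrix -/
private noncomputable def F8b_op {m l : ℕ} (M : Matrix (Fin m) (Fin l) 𝕜) :
    (Fin l → X) →L[𝕜] (Fin m → X) :=
  ContinuousLinearMap.pi fun i => ∑ j, M i j • F8b_pi (𝕜 := 𝕜) j

private theorem F8b_op_apply {m l : ℕ} (M : Matrix (Fin m) (Fin l) 𝕜) (x : Fin l → X) (i : Fin m) :
    F8b_op M x i = ∑ j, M i j • x j := by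
  change (∑ j, M i j • F8b_pi (𝕜 := 𝕜) j) x = _
  rw [_root_.sum_apply]
  rfl

private theorem F8b_op_mul {m l r : ℕ} (M : Matrix (Fin m) (Fin l) 𝕜)
    (M' : Matrix (Fin l) (Fin r) 𝕜) (x : Fin r → X) : F8b_op (M * M') x = F8b_op M (F8b_op M' x) := by
  funext i
  rw [F8b_op_apply, F8b_op_apply]
  have h1 : ∀ j, M i j • F8b_op M' x j = ∑ q, (M i j * M' j q) • x q := by
    intro j
    rw [F8b_op_apply, Finset.smul_sum]
    exact Finset.sum_congr rfl fun q _ => (mul_smul _ _ _).symm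
  rw [Finset.sum_congr rfl fun j _ => h1 j, Finset.sum_comm]
  refine Finset.sum_congr rfl fun q _ => ?_
  rw [Matrix.mul_apply, Finset.sum_smul]

private theorem F8b_op_one {m : ℕ} (x : Fin m → X) : F8b_op (1 : Matrix (Fin m) (Fin m) 𝕜) x = x := by
  funext i
  rw [F8b_op_apply]
  simp [Matrix.one_apply]

private theorem F8b_entry_op {m l : ℕ} (M : Matrix (Fin m) (Fin l) 𝕜) (i : Fin m) (j : Fin l)
    (x : X) : F8b_pi (𝕜 := 𝕜) i (F8b_op M (F8b_io (𝕜 := 𝕜) j x)) = M i j • x := by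
  rw [F8b_pi_apply, F8b_op_apply]
  have h1 : ∀ q, (F8b_io (𝕜 := 𝕜) j x : Fin l → X) q = if q = j then x else 0 := fun q =>
    F8b_pi_io (𝕜 := 𝕜) q j x
  rw [Finset.sum_congr rfl fun q _ => by rw [h1 q, smul_ite, smul_zero]]
  rw [Finset.sum_ite_eq' Finset.univ j, if_pos (Finset.mem_univ _)]

/-- the entries of an operator between powers -/
private noncomputable def F8b_ent {m l : ℕ} (T : (Fin l → X) →L[𝕜] (Fin m → X)) (i : Fin m)
    (j : Fin l) : X →L[𝕜] X :=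
  (F8b_pi (𝕜 := 𝕜) i).comp (T.comp (F8b_io (𝕜 := 𝕜) j))

private theorem F8b_ent_comp {m l r : ℕ} (T : (Fin l → X) →L[𝕜] (Fin m → X))
    (U : (Fin r → X) →L[𝕜] (Fin l → X)) (i : Fin m) (j : Fin r) :
    F8b_ent (T.comp U) i j = ∑ q, (F8b_ent T i q).comp (F8b_ent U q j) := by
  ext x
  rw [_root_.sum_apply]
  change F8b_pi (𝕜 := 𝕜) i (T (U (F8b_io (𝕜 := 𝕜) j x))) =
    ∑ q, F8b_pi (𝕜 := 𝕜) i (T (F8b_io (𝕜 := 𝕜) q (F8b_pi (𝕜 := 𝕜) q (U (F8b_io (𝕜 := 𝕜) j x)))))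
  rw [← map_sum, ← map_sum, F8b_sum]

/-- an operator between powers whose entries factor through `c_0` factors through `c_0` -/
private theorem F8b_fac {m l : ℕ} (T : (Fin l → X) →L[𝕜] (Fin m → X))
    (h : ∀ i j, Fac (F8b_ent T i j)) : Fac T := by
  have h1 : T = ∑ i, ∑ j, (F8b_io (𝕜 := 𝕜) i).comp ((F8b_ent T i j).comp (F8b_pi (𝕜 := 𝕜) j)) := by
    ext x : 1
    rw [_root_.sum_apply]
    have h2 : ∀ i, (∑ j, (F8b_io (𝕜 := 𝕜) i).comp ((F8b_ent T i j).comp (F8b_pi (𝕜 := 𝕜) j))) x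
        = F8b_io (𝕜 := 𝕜) i (F8b_pi (𝕜 := 𝕜) i (T x)) := by
      intro i
      rw [_root_.sum_apply]
      change ∑ j, F8b_io (𝕜 := 𝕜) i (F8b_pi (𝕜 := 𝕜) i
        (T (F8b_io (𝕜 := 𝕜) j (F8b_pi (𝕜 := 𝕜) j x)))) = _
      rw [← map_sum, ← map_sum, ← map_sum, F8b_sum]
    rw [Finset.sum_congr rfl fun i _ => h2 i, F8b_sum]
  rw [h1]
  exact Fac.sum _ _ fun i _ => Fac.sum _ _ fun j _ => ((h i j).comp_right _).comp_left _

end

namespace FS

variable {X : Type} [NormedAddCommGroup X] [NormedSpace 𝕜 X] [CompleteSpace X] (F : FS 𝕜 X)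

private noncomputable def F8b_lam {m l : ℕ} (T : (Fin l → X) →L[𝕜] (Fin m → X)) :
    Matrix (Fin m) (Fin l) 𝕜 := Matrix.of fun i j => F.lam (F8b_ent T i j)

omit [CompleteSpace X] in
private theorem F8b_lam_apply {m l : ℕ} (T : (Fin l → X) →L[𝕜] (Fin m → X)) (i : Fin m)
    (j : Fin l) : F.F8b_lam T i j = F.lam (F8b_ent T i j) := rfl

omit [CompleteSpace X] in
private theorem F8b_lam_comp {m l r : ℕ} (T : (Fin l → X) →L[𝕜] (Fin m → X))
    (U : (Fin r → X) →L[𝕜] (Fin l → X)) :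
    F.F8b_lam (T.comp U) = F.F8b_lam T * F.F8b_lam U := by
  ext i j
  rw [F8b_lam_apply, F8b_ent_comp, lam_sum, Matrix.mul_apply]
  exact Finset.sum_congr rfl fun q _ => lam_comp F _ _

omit [CompleteSpace X] in
private theorem F8b_lam_id {m : ℕ} :
    F.F8b_lam (ContinuousLinearMap.id 𝕜 (Fin m → X)) = 1 := by
  ext i j
  rw [F8b_lam_apply, Matrix.one_apply]
  have h1 : F8b_ent (ContinuousLinearMap.id 𝕜 (Fin m → X)) i j =
      if i = j then ContinuousLinearMap.id 𝕜 X else 0 := by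
    ext x
    change F8b_pi (𝕜 := 𝕜) i (F8b_io (𝕜 := 𝕜) j x) = _
    rw [F8b_pi_io]
    split_ifs <;> rfl
  rw [h1]
  split_ifs
  · exact lam_one F
  · have h := lam_smul F (0 : 𝕜) (0 : X →L[𝕜] X)
    rwa [zero_smul, zero_mul] at h

include F

/-- every retract of `X^n` is finite dimensional, `c_0`, or `X^k` with `1 ≤ k ≤ n`.
`P = a b`, `e i j = lam (π_i P ι_j)` is an idempotent matrix, `e = s t`, `t s = 1`; `S = s ⊗ 1`,
`T = t ⊗ 1` (matrices act on powers of `X`), `P = S T + W` with `W` in `Fac`; `α = b S : X^k → Y`,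
`β = T a : Y → X^k`; `β α = 1 + T W S`, `α β = 1 - b W a`; if `k = 0` the identity of `Y` is in `Fac`;
if `k ≥ 1` then `c_0` is complemented in `Y` (`r = R m π_0 β`, `j = α ι_0 J m` for large `m`,
`hasC0_of_near`, `RWJ`, `Gd_iff_fac`) and in `X^k`, so `Y ≅ Y × c_0 ≅ X^k × c_0 ≅ X^k`. -/
theorem pow_retract (n : ℕ) {Y : Type*} [NormedAddCommGroup Y] [NormedSpace 𝕜 Y]
    [CompleteSpace Y] (a : Y →L[𝕜] (Fin n → X)) (b : (Fin n → X) →L[𝕜] Y)
    (hba : ∀ y, b (a y) = y) (hY : ¬ FiniteDimensional 𝕜 Y) :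
    Nonempty (Y ≃L[𝕜] CZ 𝕜) ∨ ∃ k, 1 ≤ k ∧ k ≤ n ∧ Nonempty (Y ≃L[𝕜] (Fin k → X)) := by
  set P : (Fin n → X) →L[𝕜] (Fin n → X) := a.comp b with hP
  have hPP : P.comp P = P := by
    ext x : 1
    change a (b (a (b x))) = a (b x)
    rw [hba]
  obtain ⟨k, hk, s, t, hts, hst⟩ := exists_rank_factor (F.F8b_lam P) (by
    rw [← F8b_lam_comp, hPP])
  set S : (Fin k → X) →L[𝕜] (Fin n → X) := F8b_op s with hS
  set T : (Fin n → X) →L[𝕜] (Fin k → X) := F8b_op t with hT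
  have hTS : ∀ x, T (S x) = x := by
    intro x
    rw [hT, hS, ← F8b_op_mul, hts, F8b_op_one]
  set W : (Fin n → X) →L[𝕜] (Fin n → X) := P - S.comp T with hW
  have hWx : ∀ x, W x = a (b x) - S (T x) := fun x => rfl
  have hWfac : Fac W := by
    refine F8b_fac W fun i j => ?_
    have h1 : F8b_ent W i j = F8b_ent P i j - F.lam (F8b_ent P i j) • ContinuousLinearMap.id 𝕜 X := by
      ext x
      change F8b_pi (𝕜 := 𝕜) i (P (F8b_io (𝕜 := 𝕜) j x) - S (T (F8b_io (𝕜 := 𝕜) j x))) =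
        F8b_pi (𝕜 := 𝕜) i (P (F8b_io (𝕜 := 𝕜) j x)) - F.lam (F8b_ent P i j) • x
      rw [map_sub, hS, hT, ← F8b_op_mul, hst, F8b_entry_op]
      rfl
    rw [h1]
    exact (Gd_iff_fac F _).1 (lam_spec F _)
  set α : (Fin k → X) →L[𝕜] Y := b.comp S with hα
  set β : Y →L[𝕜] (Fin k → X) := T.comp a with hβ
  have hβα : ∀ x, β (α x) = x + T (W (S x)) := by
    intro x
    change T (a (b (S x))) = _
    rw [hWx, hTS, map_sub, hTS]
    abel
  have hαβ : ∀ y, α (β y) = y - b (W (a y)) := by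
    intro y
    change b (S (T (a y))) = _
    rw [hWx, hba, map_sub, hba]
    abel
  have hF1 : Fac (β.comp α - ContinuousLinearMap.id 𝕜 (Fin k → X)) := by
    have h1 : β.comp α - ContinuousLinearMap.id 𝕜 (Fin k → X) = T.comp (W.comp S) := by
      ext x : 1
      change β (α x) - x = T (W (S x))
      rw [hβα, add_sub_cancel_left]
    rw [h1]
    exact (hWfac.comp_right S).comp_left T
  have hF2 : Fac (α.comp β - ContinuousLinearMap.id 𝕜 Y) := by
    have h1 : α.comp β - ContinuousLinearMap.id 𝕜 Y = -(b.comp (W.comp a)) := by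
      ext y : 1
      change α (β y) - y = -(b (W (a y)))
      rw [hαβ]
      abel
    rw [h1]
    exact ((hWfac.comp_right a).comp_left b).neg
  rcases Nat.eq_zero_or_pos k with h0 | hpos
  · left
    subst h0
    have h1 : Fac (ContinuousLinearMap.id 𝕜 Y) := by
      have h2 : ContinuousLinearMap.id 𝕜 Y = b.comp (W.comp a) := by
        ext y : 1
        change y = b (W (a y))
        have h3 := hαβ y
        rw [Subsingleton.elim (β y) 0, map_zero] at h3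
        exact (sub_eq_zero.1 h3.symm)
      rw [h2]
      exact (hWfac.comp_right a).comp_left b
    obtain ⟨u, v, huv⟩ := h1
    exact pelczynski u v (fun y => (DFunLike.congr_fun huv y).symm) hY
  · right
    refine ⟨k, hpos, hk, ?_⟩
    let i0 : Fin k := ⟨0, hpos⟩
    -- the complemented copies of `c_0`
    have hV : F.Gd (F8b_ent (T.comp (W.comp S)) i0 i0) := by
      rw [Gd_iff_fac]
      exact (((hWfac.comp_right S).comp_left T).comp_right _).comp_left _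
    obtain ⟨m, hm⟩ := RWJ F hV (1 / 2) (by norm_num)
    have hC1 : HasC0 𝕜 Y := by
      refine hasC0_of_near (((F.R m).comp (F8b_pi (𝕜 := 𝕜) i0)).comp β)
        (α.comp ((F8b_io (𝕜 := 𝕜) i0).comp (F.J m))) (1 / 2) (by norm_num) fun u => ?_
      have h1 : (((F.R m).comp (F8b_pi (𝕜 := 𝕜) i0)).comp β)
          ((α.comp ((F8b_io (𝕜 := 𝕜) i0).comp (F.J m))) u) =
          u + F.R m (F8b_ent (T.comp (W.comp S)) i0 i0 (F.J m u)) := by
        change F.R m (F8b_pi (𝕜 := 𝕜) i0 (β (α (F8b_io (𝕜 := 𝕜) i0 (F.J m u))))) = _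
        rw [hβα, map_add, F8b_pi_io, if_pos rfl, map_add, F.RJ]
        rfl
      rw [h1, sub_add_cancel_left, norm_neg]
      exact hm m le_rfl u
    have hC2 : HasC0 𝕜 (Fin k → X) := by
      refine ⟨(F8b_io (𝕜 := 𝕜) i0).comp (F.J 0), (F.R 0).comp (F8b_pi (𝕜 := 𝕜) i0), ?_⟩
      ext u : 1
      change F.R 0 (F8b_pi (𝕜 := 𝕜) i0 (F8b_io (𝕜 := 𝕜) i0 (F.J 0 u))) = u
      rw [F8b_pi_io, if_pos rfl, F.RJ]
    obtain ⟨e1⟩ := absorb hC1
    obtain ⟨e2⟩ := absorb hC2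
    obtain ⟨e3⟩ := stable_iso α β hF1 hF2
    exact ⟨(e1.trans e3).trans e2.symm⟩

/-- the powers of `X` are pairwise not isomorphic: take the matrices of `lam` -/
theorem pow_inj (k l : ℕ) (h : Nonempty ((Fin k → X) ≃L[𝕜] (Fin l → X))) : k = l := by
  obtain ⟨e⟩ := h
  let A : Matrix (Fin l) (Fin k) 𝕜 := F.F8b_lam (e : (Fin k → X) →L[𝕜] (Fin l → X))
  let B : Matrix (Fin k) (Fin l) 𝕜 := F.F8b_lam (e.symm : (Fin l → X) →L[𝕜] (Fin k → X))
  have h1 : A * B = 1 := by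
    rw [← F8b_lam_comp, ← F8b_lam_id F]
    congr 1
    ext x : 1
    exact e.apply_symm_apply x
  have h2 : B * A = 1 := by
    rw [← F8b_lam_comp, ← F8b_lam_id F]
    congr 1
    ext x : 1
    exact e.symm_apply_apply x
  have e' : (Fin k → 𝕜) ≃ₗ[𝕜] (Fin l → 𝕜) :=
    LinearEquiv.ofLinearMap (Matrix.toLin' A) (Matrix.toLin' B)
      (by rw [← Matrix.toLin'_mul, h1, Matrix.toLin'_one])
      (by rw [← Matrix.toLin'_mul, h2, Matrix.toLin'_one])
  have h3 := e'.finrank_eq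
  rwa [Module.finrank_fin_fun, Module.finrank_fin_fun] at h3

theorem pow_not_c0 (k : ℕ) : ¬ Nonempty ((Fin k → X) ≃L[𝕜] CZ 𝕜) := by
  rintro ⟨e⟩
  rcases Nat.eq_zero_or_pos k with h0 | hpos
  · subst h0
    have h1 : (CZ.dl 0 : CZ 𝕜) = 0 := by
      rw [← e.apply_symm_apply (CZ.dl 0), Subsingleton.elim (e.symm (CZ.dl 0)) 0, map_zero]
    have h2 : (CZ.dl 0 : CZ 𝕜) 0 = 0 := by
      rw [h1]
      rfl
    rw [CZ.dl_apply, if_pos rfl] at h2
    exact one_ne_zero h2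
  · let i0 : Fin k := ⟨0, hpos⟩
    apply not_fac_id F
    refine ⟨(e : (Fin k → X) →L[𝕜] CZ 𝕜).comp (F8b_io (𝕜 := 𝕜) i0),
      (F8b_pi (𝕜 := 𝕜) i0).comp (e.symm : CZ 𝕜 →L[𝕜] (Fin k → X)), ?_⟩
    ext x
    change x = F8b_pi (𝕜 := 𝕜) i0 (e.symm (e (F8b_io (𝕜 := 𝕜) i0 x)))
    rw [e.symm_apply_apply, F8b_pi_io, if_pos rfl]

end FS

end Pool.Agent.MP8c9cbf
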