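import Pool.Agent.Lib.MP_8c9cbf_an.F.Alg

/-! Row F7: rigidity of `X`. -/

namespace Pool.Agent.MP8c9cbf

open Finset Filter Topology

variable {𝕜 : Type} [RCLike 𝕜]

/-- a decomposition into closed complementary subspaces gives bounded projections (open mapping
theorem, e.g. `Submodule.IsCompl.projectionOnto`/`linearProjOfClosedCompl` in Mathlib) -/
theorem exists_proj {E : Type*} [NormedAddCommGroup E] [NormedSpace 𝕜 E] [CompleteSpace E]
    (Y Z : Submodule 𝕜 E) (hY : IsClosed (Y : Set E)) (hZ : IsClosed (Z : Set E))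
    (h : IsCompl Y Z) : ∃ (p : E →L[𝕜] Y) (q : E →L[𝕜] Z), (∀ y : Y, p y = y) ∧
      (∀ z : Z, q z = z) ∧ (∀ z : Z, p z = 0) ∧ (∀ y : Y, q y = 0) ∧
      ∀ x, (p x : E) + (q x : E) = x := by
  let e := Y.prodEquivOfClosedCompl Z h hY hZ
  have he : ∀ (y : Y) (z : Z), e (y, z) = (y : E) + z := by
    intro y z
    have h1 : e (y, z) = Y.prodEquivOfIsCompl Z h (y, z) := rfl
    rw [h1]
    rfl
  have hs : ∀ (y : Y) (z : Z), e.symm ((y : E) + z) = (y, z) := by
    intro y z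
    rw [← he, ContinuousLinearEquiv.symm_apply_apply]
  refine ⟨(ContinuousLinearMap.fst 𝕜 Y Z).comp (e.symm : E →L[𝕜] Y × Z),
    (ContinuousLinearMap.snd 𝕜 Y Z).comp (e.symm : E →L[𝕜] Y × Z), fun y => ?_, fun z => ?_,
    fun z => ?_, fun y => ?_, fun x => ?_⟩
  · have h1 := hs y 0
    rw [Submodule.coe_zero, add_zero] at h1
    show (e.symm (y : E)).1 = y
    rw [h1]
  · have h1 := hs 0 z
    rw [Submodule.coe_zero, zero_add] at h1
    show (e.symm (z : E)).2 = z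
    rw [h1]
  · have h1 := hs 0 z
    rw [Submodule.coe_zero, zero_add] at h1
    show (e.symm (z : E)).1 = 0
    rw [h1]
  · have h1 := hs y 0
    rw [Submodule.coe_zero, add_zero] at h1
    show (e.symm (y : E)).2 = 0
    rw [h1]
  · show ((e.symm x).1 : E) + ((e.symm x).2 : E) = x
    rw [← he]
    exact e.apply_symm_apply x

/-- `c_0` is infinite dimensional -/
theorem F7_infinite : ¬ FiniteDimensional 𝕜 (CZ 𝕜) := by
  intro hfin
  have h : LinearIndependent 𝕜 (fun n : ℕ => (CZ.dl n : CZ 𝕜)) := by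
    rw [linearIndependent_iff']
    intro s g hg i hi
    have h1 := congrArg (CZ.co i : CZ 𝕜 →L[𝕜] 𝕜) hg
    rw [map_sum, map_zero] at h1
    rw [← h1, Finset.sum_eq_single i]
    · rw [map_smul, CZ.co_apply, CZ.dl_apply, if_pos rfl, smul_eq_mul, mul_one]
    · intro j _ hj
      rw [map_smul, CZ.co_apply, CZ.dl_apply, if_neg hj.symm, smul_zero]
    · intro hn
      exact absurd hi hn
  have h2 : Finite ℕ := h.finite
  exact not_finite ℕ

/-- operators with values in a finite dimensional space factor through `c_0` -/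
theorem F7_fac {X Y : Type*} [NormedAddCommGroup X] [NormedSpace 𝕜 X] [NormedAddCommGroup Y]
    [NormedSpace 𝕜 Y] [FiniteDimensional 𝕜 Y] (T : X →L[𝕜] Y) : Fac T := by
  let b := Module.finBasis 𝕜 Y
  have h1 : T = ∑ i, ((LinearMap.toContinuousLinearMap (b.coord i)).comp T).smulRight (b i) := by
    ext x
    have h2 := (b.sum_repr (T x)).symm
    rw [_root_.sum_apply]
    exact h2
  rw [h1]
  refine Fac.sum _ _ fun i _ => ?_
  refine ⟨((LinearMap.toContinuousLinearMap (b.coord i)).comp T).smulRight (CZ.dl 0),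
    (CZ.co 0 : CZ 𝕜 →L[𝕜] 𝕜).smulRight (b i), ?_⟩
  ext x
  simp only [ContinuousLinearMap.smulRight_apply, ContinuousLinearMap.comp_apply, map_smul,
    CZ.co_apply, CZ.dl_apply, if_true, one_smul]

namespace FS

variable {X : Type} [NormedAddCommGroup X] [NormedSpace 𝕜 X] [CompleteSpace X] (F : FS 𝕜 X)

include F

/-- if `lam (a b) = 0` then `Y ≅ c_0`, `Z` has a complemented copy of `c_0` (`RWJ`, `hasC0_of_near`)
and `X ≅ Y × Z ≅ c_0 × Z ≅ Z` (`absorb`) -/
theorem rigid_aux {Y Z : Type*} [NormedAddCommGroup Y] [NormedSpace 𝕜 Y] [CompleteSpace Y]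
    [NormedAddCommGroup Z] [NormedSpace 𝕜 Z] [CompleteSpace Z]
    (a : Y →L[𝕜] X) (b : X →L[𝕜] Y) (c : Z →L[𝕜] X) (d : X →L[𝕜] Z)
    (hba : ∀ y, b (a y) = y) (hdc : ∀ z, d (c z) = z) (hbc : ∀ z, b (c z) = 0)
    (hda : ∀ y, d (a y) = 0) (hsum : ∀ x, a (b x) + c (d x) = x)
    (hY : ¬ FiniteDimensional 𝕜 Y) (h0 : F.lam (a.comp b) = 0) :
    Nonempty (Y ≃L[𝕜] CZ 𝕜) ∧ Nonempty (Z ≃L[𝕜] X) := by
  have hG : F.Gd (a.comp b) := by
    have h1 := F.lam_spec (a.comp b)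
    rwa [h0, zero_smul, sub_zero] at h1
  obtain ⟨α, β, hαβ⟩ := F.fac_of_Gd hG
  have hαβ' : ∀ x, a (b x) = β (α x) := fun x => by
    have h1 := congrArg (fun T : X →L[𝕜] X => T x) hαβ
    exact h1
  have hYc : Nonempty (Y ≃L[𝕜] CZ 𝕜) := by
    refine pelczynski (α.comp a) (b.comp β) (fun y => ?_) hY
    show b (β (α (a y))) = y
    rw [← hαβ', hba, hba]
  refine ⟨hYc, ?_⟩
  have hZ : HasC0 𝕜 Z := by
    obtain ⟨n, hn⟩ := F.RWJ hG (1 / 2) (by norm_num)
    refine hasC0_of_near ((F.R n).comp c) (d.comp (F.J n)) (1 / 2) (by norm_num) fun u => ?_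
    have h1 : u - F.R n (c (d (F.J n u))) = F.R n (a (b (F.J n u))) := by
      have h2 := congrArg (F.R n) (hsum (F.J n u))
      rw [map_add, F.RJ] at h2
      rw [eq_comm, eq_sub_iff_add_eq]
      exact h2
    show ‖u - F.R n (c (d (F.J n u)))‖ ≤ 1 / 2 * ‖u‖
    rw [h1]
    exact hn n le_rfl u
  obtain ⟨e1⟩ := hYc
  obtain ⟨e2⟩ := absorb hZ
  have e3 : X ≃L[𝕜] Y × Z := ContinuousLinearEquiv.equivOfInverse (b.prod d)
    (a.comp (ContinuousLinearMap.fst 𝕜 Y Z) + c.comp (ContinuousLinearMap.snd 𝕜 Y Z))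
    (fun x => hsum x) (fun y => by
      rcases y with ⟨y, z⟩
      show (b (a y + c z), d (a y + c z)) = (y, z)
      rw [map_add, map_add, hba, hbc, hda, hdc, add_zero, zero_add])
  exact ⟨(e2.trans ((ContinuousLinearEquiv.prodComm 𝕜 Z (CZ 𝕜)).trans
    ((e1.symm.prodCongr (ContinuousLinearEquiv.refl 𝕜 Z)).trans e3.symm)))⟩

/-- every decomposition is `c_0 ⊕ X`; `lam` of an idempotent is `0` or `1` -/
theorem rigid (Y Z : Submodule 𝕜 X) (hY : IsClosed (Y : Set X)) (hZ : IsClosed (Z : Set X))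
    (h : IsCompl Y Z) (hY' : ¬ FiniteDimensional 𝕜 Y) (hZ' : ¬ FiniteDimensional 𝕜 Z) :
    (Nonempty (Y ≃L[𝕜] CZ 𝕜) ∧ Nonempty (Z ≃L[𝕜] X)) ∨
    (Nonempty (Z ≃L[𝕜] CZ 𝕜) ∧ Nonempty (Y ≃L[𝕜] X)) := by
  obtain ⟨p, q, hpy, hqz, hpz, hqy, hsum⟩ := exists_proj Y Z hY hZ h
  have : CompleteSpace Y := hY.completeSpace_coe
  have : CompleteSpace Z := hZ.completeSpace_coe
  have h1 : F.lam (Y.subtypeL.comp p) + F.lam (Z.subtypeL.comp q) = 1 := by
    rw [← F.lam_add, ← F.lam_one]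
    congr 1
    ext x
    exact hsum x
  have h2 : F.lam (Y.subtypeL.comp p) * F.lam (Y.subtypeL.comp p) =
      F.lam (Y.subtypeL.comp p) := by
    rw [← F.lam_comp]
    congr 1
    ext x
    show ((p (p x : X) : Y) : X) = (p x : X)
    rw [hpy]
  by_cases h3 : F.lam (Y.subtypeL.comp p) = 0
  · exact Or.inl (F.rigid_aux Y.subtypeL p Z.subtypeL q hpy hqz hpz hqy hsum hY' h3)
  · have h4 : F.lam (Y.subtypeL.comp p) = 1 := mul_left_cancel₀ h3 (by rw [h2, mul_one])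
    have h5 : F.lam (Z.subtypeL.comp q) = 0 := by
      rw [h4] at h1
      exact add_eq_left.1 h1
    exact Or.inr (F.rigid_aux Z.subtypeL q Y.subtypeL p hqz hpy hqy hpz
      (fun x => by rw [add_comm]; exact hsum x) hZ' h5)

/-- there is a nontrivial decomposition: `P = J 0 R 0`; if `ker P` were finite dimensional then
`1 - P` would be of finite rank, so in `Fac`, and `P` is in `Fac`, contradiction to `not_fac_id` -/
theorem exists_decomp : ∃ Y Z : Submodule 𝕜 X, IsClosed (Y : Set X) ∧ IsClosed (Z : Set X) ∧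
    IsCompl Y Z ∧ ¬ FiniteDimensional 𝕜 Y ∧ ¬ FiniteDimensional 𝕜 Z := by
  let P : X →L[𝕜] X := (F.J 0).comp (F.R 0)
  let Q : X →L[𝕜] X := ContinuousLinearMap.id 𝕜 X - P
  have hP : ∀ x, P (P x) = P x := by
    intro x
    show F.J 0 (F.R 0 (F.J 0 (F.R 0 x))) = F.J 0 (F.R 0 x)
    rw [F.RJ]
  have hQ : ∀ x, Q x = x - P x := fun x => rfl
  refine ⟨LinearMap.ker (Q : X →ₗ[𝕜] X), LinearMap.ker (P : X →ₗ[𝕜] X), Q.isClosed_ker,
    P.isClosed_ker, ⟨?_, ?_⟩, ?_, ?_⟩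
  · rw [Submodule.disjoint_def]
    intro x h1 h2
    have h1' : x - P x = 0 := h1
    have h2' : P x = 0 := h2
    rw [h2', sub_zero] at h1'
    exact h1'
  · rw [codisjoint_iff, Submodule.eq_top_iff']
    intro x
    rw [Submodule.mem_sup]
    refine ⟨P x, ?_, x - P x, ?_, by abel⟩
    · show P x - P (P x) = 0
      rw [hP, sub_self]
    · show P (x - P x) = 0
      rw [map_sub, hP, sub_self]
  · intro hfin
    apply F7_infinite (𝕜 := 𝕜)
    let f : CZ 𝕜 →ₗ[𝕜] LinearMap.ker (Q : X →ₗ[𝕜] X) :=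
      LinearMap.codRestrict _ (F.J 0 : CZ 𝕜 →ₗ[𝕜] X) (fun u => by
        show F.J 0 u - F.J 0 (F.R 0 (F.J 0 u)) = 0
        rw [F.RJ, sub_self])
    refine Module.Finite.of_injective f ?_
    intro u v huv
    have h1 : F.J 0 u = F.J 0 v := congrArg Subtype.val huv
    rw [← F.RJ 0 u, h1, F.RJ]
  · intro hfin
    apply F.not_fac_id
    have h1 : Fac P := ⟨F.R 0, F.J 0, rfl⟩
    let g : X →L[𝕜] LinearMap.ker (P : X →ₗ[𝕜] X) := Q.codRestrict _ (fun x => by
      show P (x - P x) = 0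
      rw [map_sub, hP, sub_self])
    have h2 : Fac Q := by
      have h3 := (F7_fac g).comp_left (LinearMap.ker (P : X →ₗ[𝕜] X)).subtypeL
      have h4 : (LinearMap.ker (P : X →ₗ[𝕜] X)).subtypeL.comp g = Q := by
        ext x
        rfl
      rwa [h4] at h3
    have h5 := h1.add h2
    have h6 : P + Q = ContinuousLinearMap.id 𝕜 X := add_sub_cancel _ _
    rwa [h6] at h5

end FS

end Pool.Agent.MP8c9cbf
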