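import Pool.Agent.Lib.MP_8c9cbf_an.F.Bas

/-! Row F10: separability. -/

namespace Pool.Agent.MP8c9cbf

open Finset Filter Topology

variable {𝕜 : Type} [RCLike 𝕜]

/-- `c_0` is separable: it is the closed span of the unit vectors (`CZ.hasSum`) -/
theorem CZ.separable : TopologicalSpace.SeparableSpace (CZ 𝕜) := by
  rw [← TopologicalSpace.isSeparable_univ_iff]
  have h1 : TopologicalSpace.IsSeparable (Set.range (CZ.dl : ℕ → CZ 𝕜)) :=
    (Set.countable_range _).isSeparable
  have h2 := (h1.span (R := 𝕜)).closure
  refine h2.mono fun x _ => ?_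
  refine mem_closure_of_tendsto (CZ.hasSum x) (Filter.Eventually.of_forall fun s => ?_)
  refine Submodule.sum_mem _ fun k _ => Submodule.smul_mem _ _ (Submodule.subset_span ⟨k, rfl⟩)

/-- `X` is the closure of the union of the separable sets `range (B n)`, as `Q n x → x` -/
theorem FS.separable {X : Type} [NormedAddCommGroup X] [NormedSpace 𝕜 X] (F : FS 𝕜 X) :
    TopologicalSpace.SeparableSpace X := by
  have := CZ.separable (𝕜 := 𝕜)
  rw [← TopologicalSpace.isSeparable_univ_iff]
  have h1 : TopologicalSpace.IsSeparable (⋃ n, Set.range (F.B n)) :=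
    TopologicalSpace.IsSeparable.iUnion fun n =>
      TopologicalSpace.isSeparable_range (F.B n).continuous
  refine h1.closure.mono fun x _ => ?_
  refine mem_closure_of_tendsto (F.Q_tendsto x) (Filter.Eventually.of_forall fun n => ?_)
  exact Set.mem_iUnion.2 ⟨n, F.A n x, F.BA n x⟩

end Pool.Agent.MP8c9cbf
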